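import Mathlib

/-!
# IQ / Cls: counting classes

`S ⊆ A` consists of elements `f` with `αf + β` a nonresidue modulo `p`, and `N` of natural numbers `m` with
`m ^ 2 = α b + β` for some `b ∈ A`. Then `2 |S mod p| + |N mod p| ≤ 2 |A mod p|`.
-/

set_option autoImplicit false

namespace Pool.Agent.Helper27.IQ

open Finset
open scoped NumberTheorySymbols

theorem card_mod_le (S : Finset ℕ) (p : ℕ) :
    (S.image (fun n : ℕ => n % p)).card ≤ (S.image (fun n : ℕ => (n : ZMod p))).card := by
  classical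
  have h : S.image (fun n : ℕ => n % p) = (S.image (fun n : ℕ => (n : ZMod p))).image ZMod.val := by
    rw [image_image]
    apply image_congr
    intro n _
    exact (ZMod.val_natCast p n).symm
  rw [h]
  exact card_image_le

theorem card_le_two_sq {F : Type*} [Field F] [DecidableEq F] (Z : Finset F) :
    Z.card ≤ 2 * (Z.image (fun x => x ^ 2)).card := by
  apply card_le_mul_card_image
  intro b hb
  obtain ⟨x, hx, rfl⟩ := mem_image.1 hb
  have h : Z.filter (fun a => a ^ 2 = x ^ 2) ⊆ {x, -x} := by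
    intro a ha
    have h1 := (mem_filter.1 ha).2
    rw [mem_insert, mem_singleton]
    exact sq_eq_sq_iff_eq_or_eq_neg.1 h1
  exact (card_le_card h).trans card_le_two

theorem classes (A : Set ℕ) (α β : ℤ) (p : ℕ) [Fact p.Prime] (S N : Finset ℕ)
    (hS : ∀ f ∈ S, f ∈ A ∧ J(α * (f : ℤ) + β | p) = -1)
    (hN : ∀ m ∈ N, ∃ b ∈ A, (m : ℤ) ^ 2 = α * (b : ℤ) + β) :
    2 * (S.image (fun n : ℕ => n % p)).card + (N.image (fun n : ℕ => n % p)).card ≤
      2 * ((fun a : ℕ => (a : ZMod p)) '' A).ncard := by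
  classical
  have hp : p.Prime := Fact.out
  choose! b hbA hb using hN
  set CS := S.image (fun n : ℕ => (n : ZMod p)) with hCS
  set CB := N.image (fun m : ℕ => ((b m : ℕ) : ZMod p)) with hCB
  set CN := N.image (fun m : ℕ => (m : ZMod p)) with hCN
  have h1 : CN.card ≤ 2 * CB.card := by
    refine (card_le_two_sq CN).trans ?_
    have h2 : CN.image (fun x => x ^ 2) ⊆ CB.image (fun x => (α : ZMod p) * x + (β : ZMod p)) := by
      intro y hy
      obtain ⟨x, hx, rfl⟩ := mem_image.1 hy
      obtain ⟨m, hm, rfl⟩ := mem_image.1 hx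
      rw [mem_image]
      refine ⟨((b m : ℕ) : ZMod p), mem_image_of_mem _ hm, ?_⟩
      have h3 := congrArg (Int.cast : ℤ → ZMod p) (hb m hm)
      push_cast at h3
      exact h3.symm
    have h4 := (card_le_card h2).trans card_image_le
    omega
  have hdis : Disjoint CS CB := by
    rw [disjoint_left]
    intro x hx hx'
    obtain ⟨f, hf, rfl⟩ := mem_image.1 hx
    obtain ⟨m, hm, hfm⟩ := mem_image.1 hx'
    have h3 := (hS f hf).2
    have h4 : J(α * (f : ℤ) + β | p) = J((m : ℤ) ^ 2 | p) := by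
      apply jacobiSym.mod_left'
      rw [hb m hm]
      have h5 : (((b m : ℕ) : ℤ) : ZMod p) = ((f : ℤ) : ZMod p) := by
        push_cast
        exact hfm
      have h6 : ((b m : ℕ) : ℤ) ≡ (f : ℤ) [ZMOD p] := (ZMod.intCast_eq_intCast_iff _ _ _).1 h5
      exact ((h6.mul_left α).add_right β).symm
    rw [h4, jacobiSym.pow_left] at h3
    rcases jacobiSym.trichotomy (m : ℤ) p with h | h | h <;> rw [h] at h3 <;> norm_num at h3
  have hsub : ((CS ∪ CB : Finset (ZMod p)) : Set (ZMod p)) ⊆ (fun a : ℕ => (a : ZMod p)) '' A := by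
    intro x hx
    rw [mem_coe, mem_union] at hx
    rcases hx with hx | hx
    · obtain ⟨f, hf, rfl⟩ := mem_image.1 hx
      exact ⟨f, (hS f hf).1, rfl⟩
    · obtain ⟨m, hm, rfl⟩ := mem_image.1 hx
      exact ⟨b m, hbA m hm, rfl⟩
  have h7 : CS.card + CB.card ≤ ((fun a : ℕ => (a : ZMod p)) '' A).ncard := by
    rw [← card_union_of_disjoint hdis, ← Set.ncard_coe_finset]
    exact Set.ncard_le_ncard hsub (Set.toFinite _)
  have h8 : (S.image (fun n : ℕ => n % p)).card ≤ CS.card := card_mod_le S p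
  have h9 : (N.image (fun n : ℕ => n % p)).card ≤ CN.card := card_mod_le N p
  omega

end Pool.Agent.Helper27.IQ
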