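import Pool.Agent.Helper27.IQ.Lrg
import Pool.Agent.Helper27.IQ.Cls

/-!
# IQ / Ez: few elements are nonresidues modulo many primes of a dyadic interval
-/

set_option autoImplicit false

namespace Pool.Agent.Helper27.IQ

open Finset
open scoped NumberTheorySymbols

/-- At most `1 / κ` primes `> z ≥ T ^ κ` divide a number between `1` and `T`. -/
theorem few_primes {κ : ℝ} (hκ : 0 < κ) (T z : ℕ) (hz : 1 < z) (hT : (T : ℝ) ^ κ ≤ z) (P : Finset ℕ)
    (hP : ∀ p ∈ P, p.Prime ∧ z < p) (n : ℕ) (hn : 0 < n) (hnT : n ≤ T) :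
    ((P.filter (fun p => p ∣ n)).card : ℝ) ≤ 1 / κ := by
  have hT1 : 1 ≤ T := by omega
  have h1 : ∏ p ∈ P.filter (fun p => p ∣ n), p ∣ n := by
    apply Finset.prod_primes_dvd
    · intro p hp
      exact (hP p (mem_filter.1 hp).1).1.prime
    · intro p hp
      exact (mem_filter.1 hp).2
  have h2 := Nat.le_of_dvd hn h1
  have h3 : z ^ (P.filter (fun p => p ∣ n)).card ≤ ∏ p ∈ P.filter (fun p => p ∣ n), p := by
    rw [← prod_const]
    exact prod_le_prod' fun p hp => (hP p (mem_filter.1 hp).1).2.le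
  have h4 : z ^ (P.filter (fun p => p ∣ n)).card ≤ T := by omega
  set k := (P.filter (fun p => p ∣ n)).card with hk
  have h5 : (z : ℝ) ^ k ≤ T := by exact_mod_cast h4
  have hzr : (1 : ℝ) < z := by exact_mod_cast hz
  have hT1r : (1 : ℝ) ≤ T := by exact_mod_cast hT1
  have hlz : 0 < Real.log z := Real.log_pos hzr
  have h6 : k * Real.log z ≤ Real.log T := by
    rw [← Real.log_pow]
    exact Real.log_le_log (by positivity) h5
  have h7 : κ * Real.log T ≤ Real.log z := by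
    rw [← Real.log_rpow (by linarith)]
    exact Real.log_le_log (by positivity) hT
  rw [le_div_iff₀ hκ]
  by_contra hcon
  rw [not_le] at hcon
  have h8 : κ * (k * Real.log z) ≤ Real.log z := (mul_le_mul_of_nonneg_left h6 hκ.le).trans h7
  have h9 : 1 * Real.log z < k * κ * Real.log z := by
    apply mul_lt_mul_of_pos_right hcon hlz
  nlinarith

open Classical in
theorem ez {κ ε : ℝ} (hκ : 0 < κ) (hε : 0 < ε) (hε1 : ε ≤ 1 / 2) (L P₀ : ℕ) : ∃ Z₀ : ℕ, ∀ z : ℕ, Z₀ ≤ z →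
    ∀ T : ℕ, (T : ℝ) ^ κ ≤ z → ∀ (A : Set ℕ) (α β : ℤ),
      (∀ p : ℕ, p.Prime → P₀ ≤ p → 2 * ((fun a : ℕ => (a : ZMod p)) '' A).ncard ≤ p + L) →
      ∀ N : Finset ℕ, (∀ m ∈ N, ∃ b ∈ A, (m : ℤ) ^ 2 = α * (b : ℤ) + β) →
      ((((Ioc z (2 * z)).filter (fun p : ℕ => p.Prime ∧
        ((N.image (fun n : ℕ => n % p)).card : ℝ) ≤ (p : ℝ) - (z : ℝ) ^ (1 - ε))).card : ℝ) ≤
          (z : ℝ) ^ (1 - ε)) →
      ∀ E : Finset ℕ, (∀ f ∈ E, f ∈ A ∧ f ≤ T ∧ (z : ℝ) ^ (1 - ε / 3) / 2 ≤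
        (((Ioc z (2 * z)).filter (fun p : ℕ => p.Prime ∧ J(α * (f : ℤ) + β | p) = -1)).card : ℝ)) →
      E.card ≤ z := by
  have hev : ∀ᶠ z : ℕ in Filter.atTop, (32 / κ + 32 ≤ (z : ℝ) ^ (ε / 3)) ∧ ((L : ℝ) ≤ (z : ℝ) ^ (1 - ε)) ∧
      P₀ ≤ z ∧ 3 ≤ z := by
    have h1 : Filter.Tendsto (fun z : ℕ => (z : ℝ) ^ (ε / 3)) Filter.atTop Filter.atTop :=
      (tendsto_rpow_atTop (by positivity)).comp tendsto_natCast_atTop_atTop
    have h2 : Filter.Tendsto (fun z : ℕ => (z : ℝ) ^ (1 - ε)) Filter.atTop Filter.atTop :=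
      (tendsto_rpow_atTop (by linarith)).comp tendsto_natCast_atTop_atTop
    filter_upwards [h1.eventually_ge_atTop (32 / κ + 32), h2.eventually_ge_atTop (L : ℝ),
      Filter.eventually_ge_atTop P₀, Filter.eventually_ge_atTop 3] with z a b c d
    exact ⟨a, b, c, d⟩
  obtain ⟨Z₀, hZ₀⟩ := Filter.eventually_atTop.1 hev
  refine ⟨Z₀, fun z hz T hT A α β hA N hN hocc E hE => ?_⟩
  obtain ⟨hz1, hz2, hz3, hz4⟩ := hZ₀ z hz
  have hz0 : (0 : ℝ) < z := by
    have : (3 : ℝ) ≤ z := by exact_mod_cast hz4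
    linarith
  have hz1' : (1 : ℝ) ≤ z := by
    have : (3 : ℝ) ≤ z := by exact_mod_cast hz4
    linarith
  -- the good primes
  set Q := (Ioc z (2 * z)).filter (fun p : ℕ => p.Prime ∧
    ¬ ((N.image (fun n : ℕ => n % p)).card : ℝ) ≤ (p : ℝ) - (z : ℝ) ^ (1 - ε)) with hQ
  have hQc : (Q.card : ℝ) ≤ z := by
    have h1 : Q.card ≤ (Ioc z (2 * z)).card := card_le_card (filter_subset _ _)
    rw [Nat.card_Ioc] at h1
    have h2 : Q.card ≤ z := by omega
    exact_mod_cast h2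
  set S : ℕ → Finset ℕ := fun p => E.filter (fun f => J(α * (f : ℤ) + β | p) = -1) with hS
  set a := (z : ℝ) ^ (ε / 3) with ha
  have ha0 : 0 < a := by positivity
  have ha1 : 32 ≤ a := by
    have : 0 < 32 / κ := by positivity
    linarith
  have ha2 : 32 / κ ≤ a := by linarith
  have hza : (z : ℝ) ^ (1 - ε / 3) = z / a := by
    rw [Real.rpow_sub hz0, Real.rpow_one]
  have hza3 : (z : ℝ) ^ (1 - ε) = z / a ^ 3 := by
    rw [Real.rpow_sub hz0, Real.rpow_one, ha, ← Real.rpow_natCast, ← Real.rpow_mul hz0.le]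
    congr 2
    push_cast
    ring
  have hm : ∀ f ∈ E, z / a / 4 ≤ ((Q.filter (fun p => f ∈ S p)).card : ℝ) := by
    intro f hf
    obtain ⟨-, -, hf3⟩ := hE f hf
    rw [hza] at hf3
    rw [hza3] at hocc
    have h1 : (Ioc z (2 * z)).filter (fun p : ℕ => p.Prime ∧ J(α * (f : ℤ) + β | p) = -1) ⊆
        (Q.filter (fun p => f ∈ S p)) ∪ (Ioc z (2 * z)).filter (fun p : ℕ => p.Prime ∧
          ((N.image (fun n : ℕ => n % p)).card : ℝ) ≤ (p : ℝ) - z / a ^ 3) := by
      intro p hp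
      obtain ⟨h2, h3, h4⟩ := mem_filter.1 hp
      rw [mem_union]
      by_cases h5 : ((N.image (fun n : ℕ => n % p)).card : ℝ) ≤ (p : ℝ) - z / a ^ 3
      · right
        exact mem_filter.2 ⟨h2, h3, h5⟩
      · left
        rw [mem_filter, hQ, mem_filter, hza3]
        exact ⟨⟨h2, h3, h5⟩, mem_filter.2 ⟨hf, h4⟩⟩
    have h2 := (card_le_card h1).trans (card_union_le _ _)
    have h3 : (((Ioc z (2 * z)).filter (fun p : ℕ => p.Prime ∧ J(α * (f : ℤ) + β | p) = -1)).card : ℝ) ≤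
        ((Q.filter (fun p => f ∈ S p)).card : ℝ) + (((Ioc z (2 * z)).filter (fun p : ℕ => p.Prime ∧
          ((N.image (fun n : ℕ => n % p)).card : ℝ) ≤ (p : ℝ) - z / a ^ 3)).card : ℝ) := by
      exact_mod_cast h2
    have h4 : z / a ^ 3 ≤ z / a / 4 := by
      rw [div_div]
      apply div_le_div_of_nonneg_left hz0.le (by positivity)
      nlinarith [pow_pos ha0 2]
    linarith
  have ht : ∀ p ∈ Q, (((S p).image (fun n : ℕ => n % p)).card : ℝ) ≤ z / a ^ 3 := by
    intro p hp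
    obtain ⟨h1, h2, h3⟩ := mem_filter.1 hp
    rw [mem_Ioc] at h1
    haveI : Fact p.Prime := ⟨h2⟩
    have h4 := classes A α β p (S p) N (fun f hf => by
      obtain ⟨h5, h6⟩ := mem_filter.1 hf
      exact ⟨(hE f h5).1, h6⟩) hN
    have h5 := hA p h2 (by omega)
    have h6 : 2 * (((S p).image (fun n : ℕ => n % p)).card : ℝ) +
        ((N.image (fun n : ℕ => n % p)).card : ℝ) ≤ p + L := by exact_mod_cast h4.trans h5
    rw [not_le, hza3] at h3
    rw [hza3] at hz2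
    linarith
  have hD : ∀ f ∈ E, ∀ f' ∈ E, f ≠ f' → ((Q.filter (fun p => f % p = f' % p)).card : ℝ) ≤ 1 / κ := by
    have key : ∀ f f' : ℕ, f < f' → f' ≤ T →
        ((Q.filter (fun p => f % p = f' % p)).card : ℝ) ≤ 1 / κ := by
      intro f f' hlt hle
      have h1 := few_primes hκ T z (by omega) hT Q (fun p hp => by
        obtain ⟨h1, h2, h3⟩ := mem_filter.1 hp
        rw [mem_Ioc] at h1
        exact ⟨h2, h1.1⟩) (f' - f) (by omega) (by omega)
      refine le_trans ?_ h1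
      have h2 : Q.filter (fun p => f % p = f' % p) ⊆ Q.filter (fun p => p ∣ f' - f) := by
        intro p hp
        rw [mem_filter] at hp ⊢
        refine ⟨hp.1, ?_⟩
        exact (Nat.modEq_iff_dvd' hlt.le).1 hp.2
      exact_mod_cast card_le_card h2
    intro f hf f' hf' hne
    rcases lt_or_gt_of_ne hne with h | h
    · exact key f f' h (hE f' hf').2.1
    · have h1 := key f' f h (hE f hf).2.1
      refine le_trans (le_of_eq ?_) h1
      congr 2
      ext p
      simp only [mem_filter]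
      exact ⟨fun h => ⟨h.1, h.2.symm⟩, fun h => ⟨h.1, h.2.symm⟩⟩
  have hmain := pair_bound E Q S (fun p _ => filter_subset _ _) (z / a ^ 3) (z / a / 4) (1 / κ) ht
    (by positivity) (by positivity) (by positivity) hm hD
  -- arithmetic
  have h1 : (z / a / 4) ^ 2 * E.card ≤ z * (z / a ^ 3) * (z + E.card * (1 / κ)) := by
    refine hmain.trans ?_
    gcongr
  have h2 : (E.card : ℝ) * a ≤ 16 * (z + E.card * (1 / κ)) := by
    have h3 : (z / a / 4) ^ 2 * E.card = (z ^ 2 / (16 * a ^ 3)) * (E.card * a) := by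
      field_simp
      ring
    have h4 : z * (z / a ^ 3) * (z + E.card * (1 / κ)) =
        (z ^ 2 / (16 * a ^ 3)) * (16 * (z + E.card * (1 / κ))) := by
      field_simp
    rw [h3, h4] at h1
    exact le_of_mul_le_mul_left h1 (by positivity)
  have h3 : 32 * (1 / κ) ≤ a := by
    rw [mul_one_div]
    exact ha2
  have h4 : (E.card : ℝ) ≤ z := by
    have hE0 : (0 : ℝ) ≤ E.card := Nat.cast_nonneg _
    have h5 : E.card * (32 * (1 / κ)) ≤ (E.card : ℝ) * a := mul_le_mul_of_nonneg_left h3 hE0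
    have h6 : (E.card : ℝ) * 32 ≤ E.card * a := mul_le_mul_of_nonneg_left ha1 hE0
    nlinarith
  exact_mod_cast h4

end Pool.Agent.Helper27.IQ
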