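import Mathlib

/-!
# IQ / Chr: the Jacobi symbol modulo an odd squarefree number is a primitive character

PROOF.  (`chr` is the definition of `Helper4/ST/JacobiChar.lean` with values in `ℂ`, no need to import that file.)
`chr_prim`: by `DirichletCharacter.isPrimitive_def` one has to show that the conductor is `d`.  Otherwise
(`DirichletCharacter.conductor_dvd_level`, `factorsThrough_conductor`) the conductor divides `d / p` for a prime `p ∣ d`, so `chr d` factors through
`d / p` (`FactorsThrough` for a multiple of the conductor: `FactorsThrough.mono`/`changeLevel`), i.e. `chr d n = 1` for all `n ≡ 1 mod d/p` coprime to `d`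
(`factorsThrough_iff_ker_unitsMap`).  But by the Chinese remainder theorem (`d / p` and `p` are coprime) there is `n ≡ 1 mod d/p`
and `n` a nonresidue modulo the odd prime `p`, and `J(n | d) = J(n | p) J(n | d/p) = -1`.
-/

set_option autoImplicit false

namespace Pool.Agent.Helper27.IQ

open scoped NumberTheorySymbols

/-- The Jacobi symbol `n ↦ (n / d)` as a complex Dirichlet character modulo `d`. -/
noncomputable def chr (d : ℕ) [NeZero d] : DirichletCharacter ℂ d where
  toFun a := ((J(a.val | d) : ℤ) : ℂ)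
  map_one' := by
    have h1 : J((((1 : ZMod d).val : ℕ) : ℤ) | d) = J(1 | d) := by
      apply jacobiSym.mod_left'
      rw [ZMod.val_one_eq_one_mod]
      push_cast
      exact Int.emod_emod_of_dvd 1 dvd_rfl
    rw [h1, jacobiSym.one_left, Int.cast_one]
  map_mul' a b := by
    rw [← Int.cast_mul, ← jacobiSym.mul_left]
    congr 1
    apply jacobiSym.mod_left'
    rw [ZMod.val_mul]
    push_cast
    exact Int.emod_emod_of_dvd _ dvd_rfl
  map_nonunit' a ha := by
    change ((J(a.val | d) : ℤ) : ℂ) = 0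
    rw [Int.cast_eq_zero, jacobiSym.eq_zero_iff_not_coprime, Int.gcd_natCast_natCast]
    intro h
    apply ha
    have : IsUnit ((a.val : ℕ) : ZMod d) := (ZMod.isUnit_iff_coprime _ _).2 h
    rwa [ZMod.natCast_zmod_val] at this

theorem chr_apply (d : ℕ) [NeZero d] (n : ℕ) : chr d (n : ZMod d) = ((J((n : ℤ) | d) : ℤ) : ℂ) := by
  change ((J((((n : ZMod d).val : ℕ) : ℤ) | d) : ℤ) : ℂ) = _
  congr 1
  apply jacobiSym.mod_left'
  rw [ZMod.val_natCast]
  push_cast
  exact Int.emod_emod_of_dvd _ dvd_rfl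

theorem chr_prim (d : ℕ) [NeZero d] (hodd : Odd d) (hd : Squarefree d) : (chr d).IsPrimitive := by
  rw [DirichletCharacter.isPrimitive_def]
  have hcd := DirichletCharacter.conductor_dvd_level (chr d)
  have hft := DirichletCharacter.factorsThrough_conductor (chr d)
  have hker := (DirichletCharacter.factorsThrough_iff_ker_unitsMap hcd).1 hft
  obtain ⟨c, hc⟩ : ∃ c, c = (chr d).conductor := ⟨_, rfl⟩
  by_contra hne
  obtain ⟨m, hm⟩ := id hcd
  rw [← hc] at hm hne
  have hm1 : m ≠ 1 := by
    rintro rfl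
    rw [mul_one] at hm
    exact hne hm.symm
  obtain ⟨p, hp, e, he⟩ := Nat.exists_prime_and_dvd hm1
  have hfac : Fact p.Prime := ⟨hp⟩
  have hdp : d = p * (c * e) := by
    rw [hm, he]
    ring
  have hcop : Nat.Coprime p (c * e) := Nat.coprime_of_squarefree_mul (by rw [← hdp]; exact hd)
  have hp2 : p ≠ 2 := by
    rintro rfl
    have h2 : 2 ∣ d := ⟨_, hdp⟩
    exact (Nat.not_even_iff_odd.2 hodd) (even_iff_two_dvd.2 h2)
  have hd0 : d ≠ 0 := NeZero.ne d
  have hce0 : c * e ≠ 0 := by
    intro h
    rw [h, mul_zero] at hdp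
    exact hd0 hdp
  have hi1 : NeZero p := ⟨hp.ne_zero⟩
  have hi2 : NeZero (c * e) := ⟨hce0⟩
  obtain ⟨a, ha⟩ := FiniteField.exists_nonsquare (F := ZMod p) (by
    rw [ZMod.ringChar_zmod_n]
    exact hp2)
  obtain ⟨n, hn1, hn2⟩ := Nat.chineseRemainder hcop a.val 1
  have hJ1 : J((n : ℤ) | p) = -1 := by
    have h1 : J((n : ℤ) | p) = J(((a.val : ℕ) : ℤ) | p) := by
      apply jacobiSym.mod_left'
      exact_mod_cast hn1
    rw [h1, ← jacobiSym.legendreSym.to_jacobiSym, legendreSym.eq_neg_one_iff]
    intro h2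
    apply ha
    push_cast at h2
    rwa [ZMod.natCast_zmod_val] at h2
  have hJ2 : J((n : ℤ) | c * e) = 1 := by
    have h1 : J((n : ℤ) | c * e) = J(((1 : ℕ) : ℤ) | c * e) := by
      apply jacobiSym.mod_left'
      exact_mod_cast hn2
    rw [h1, Nat.cast_one, jacobiSym.one_left]
  have hJ : J((n : ℤ) | d) = -1 := by
    have h1 : J((n : ℤ) | p * (c * e)) = -1 := by
      rw [jacobiSym.mul_right, hJ1, hJ2, mul_one]
    rw [hdp]
    exact h1
  have hchr : chr d (n : ZMod d) = -1 := by
    rw [chr_apply, hJ]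
    simp
  have hu : IsUnit (n : ZMod d) := by
    by_contra h
    have h1 := (chr d).map_nonunit h
    rw [hchr] at h1
    norm_num at h1
  have hu1 : ZMod.unitsMap hcd hu.unit = 1 := by
    ext
    rw [ZMod.unitsMap_val, IsUnit.unit_spec, Units.val_one, ZMod.cast_natCast hcd]
    have h3 : n ≡ 1 [MOD (chr d).conductor] := by
      rw [← hc]
      exact Nat.ModEq.of_mul_right e hn2
    have h4 := (ZMod.natCast_eq_natCast_iff _ _ _).2 h3
    rw [h4, Nat.cast_one]
  have h5 := hker (MonoidHom.mem_ker.2 hu1)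
  rw [MonoidHom.mem_ker] at h5
  have h6 := congrArg Units.val h5
  rw [MulChar.coe_toUnitHom, IsUnit.unit_spec, hchr, Units.val_one] at h6
  norm_num at h6

end Pool.Agent.Helper27.IQ
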