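import Mathlib
import Pool.Agent.Helper4.ST.LS
import Pool.Agent.Helper6.PNT
import Pool.Agent.Helper27.IQ.Chr

/-!
# IQ / Ker: few squarefree numbers are residues modulo nearly all primes of a dyadic interval

Large sieve for the primitive characters `chr d' = (· / d')`, `d' > 1` odd squarefree, `d = d'` or `d = 2 d'`, and the `r`-th power
of the sum over the primes `p ≡ 1 mod 8` in `(z, 2z]`.
-/

set_option autoImplicit false

namespace Pool.Agent.Helper27.IQ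

open Finset Filter
open scoped NumberTheorySymbols Topology

namespace KR

/-- The primes `≡ 1 mod 8` of `(z, 2z]`. -/
def E8 (z : ℕ) : Finset ℕ := (Ioc z (2 * z)).filter (fun p => p.Prime ∧ p % 8 = 1)

theorem E8_card : ∃ z₀ : ℕ, ∀ z : ℕ, z₀ ≤ z → (z : ℝ) ≤ 8 * Real.log z * (E8 z).card := by
  classical
  set P : ℕ → ℝ := fun x => ((((Finset.range (x + 1)).filter
      (fun p : ℕ => p.Prime ∧ (p : ZMod 8) = 1)).card : ℝ)) with hP
  have h1 : Tendsto (fun x : ℕ => (P x * Real.log x) / x) atTop (𝓝 (1 / (Nat.totient 8 : ℝ))) :=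
    Pool.Agent.Helper6.pi_ap_nat (q := 8) (a := 1) isUnit_one
  have ht : (Nat.totient 8 : ℝ) = 4 := by
    have : Nat.totient 8 = 4 := by decide
    exact_mod_cast this
  rw [ht] at h1
  have h2 : Tendsto (fun z : ℕ => (P (2 * z) * Real.log ((2 * z : ℕ) : ℝ)) / ((2 * z : ℕ) : ℝ))
      atTop (𝓝 (1 / 4)) :=
    h1.comp (tendsto_atTop_mono (fun z => (by omega : z ≤ 2 * z)) tendsto_id)
  have e1 := h1.eventually_le_const (show (1 / 4 : ℝ) < 17 / 64 by norm_num)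
  have e2 := h2.eventually_const_le (show (15 / 64 : ℝ) < 1 / 4 by norm_num)
  have e3 : ∀ᶠ z : ℕ in atTop, 64 * Real.log 2 ≤ Real.log (z : ℝ) :=
    (Real.tendsto_log_atTop.comp tendsto_natCast_atTop_atTop).eventually_ge_atTop _
  obtain ⟨z₀, hz₀⟩ := eventually_atTop.1 (e1.and (e2.and (e3.and (eventually_ge_atTop 2))))
  refine ⟨z₀, fun z hz => ?_⟩
  obtain ⟨g1, g2, g3, g4⟩ := hz₀ z hz
  have hz0 : (0 : ℝ) < z := by exact_mod_cast (by omega : 0 < z)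
  have hlz : 0 < Real.log (z : ℝ) := Real.log_pos (by exact_mod_cast (by omega : 1 < z))
  rw [div_le_iff₀ hz0] at g1
  have h2z : ((2 * z : ℕ) : ℝ) = 2 * z := by push_cast; ring
  rw [h2z, le_div_iff₀ (by positivity), Real.log_mul (by norm_num) hz0.ne'] at g2
  have hsplit : P (2 * z) = P z + (E8 z).card := by
    simp only [hP]
    rw [← Nat.cast_add]
    congr 1
    rw [← Finset.card_union_of_disjoint]
    · congr 1
      ext p
      simp only [E8, mem_union, mem_filter, mem_range, mem_Ioc]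
      have h8 : ((p : ZMod 8) = 1) ↔ p % 8 = 1 := by
        have := ZMod.natCast_eq_natCast_iff' p 1 8
        simpa using this
      rw [h8]
      constructor
      · rintro ⟨a, b⟩
        by_cases hp : p ≤ z
        · exact Or.inl ⟨by omega, b⟩
        · exact Or.inr ⟨by omega, b⟩
      · rintro (⟨a, b⟩ | ⟨a, b⟩)
        · exact ⟨by omega, b⟩
        · exact ⟨by omega, b⟩
    · rw [Finset.disjoint_left]
      intro p hp hq
      simp only [E8, mem_filter, mem_range, mem_Ioc] at hp hq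
      omega
  have hPn : 0 ≤ P (2 * z) := by simp only [hP]; positivity
  have g5 : P (2 * z) * (Real.log 2 + Real.log z) ≤ P (2 * z) * (65 / 64 * Real.log z) := by
    refine mul_le_mul_of_nonneg_left ?_ hPn
    linarith
  rw [hsplit] at g5 g2
  nlinarith [g1, g2, g5]

/-- The odd part of a squarefree number. -/
def od (d : ℕ) : ℕ := if Even d then d / 2 else d

theorem od_spec {d : ℕ} (hd : Squarefree d) : Odd (od d) ∧ Squarefree (od d) ∧ od d ≤ d ∧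
    (d = od d ∨ d = 2 * od d) := by
  unfold od
  split_ifs with h
  · obtain ⟨k, hk⟩ := h
    have hk2 : d = 2 * k := by omega
    have hk3 : d / 2 = k := by omega
    rw [hk3]
    have hsq : Squarefree k := hd.squarefree_of_dvd ⟨2, by rw [hk2]; ring⟩
    refine ⟨?_, hsq, by omega, Or.inr hk2⟩
    rw [← Nat.not_even_iff_odd]
    rintro ⟨l, hl⟩
    have : 2 * 2 ∣ d := ⟨l, by omega⟩
    have := hd 2 this
    rw [Nat.isUnit_iff] at this
    omega
  · rw [Nat.not_even_iff_odd] at h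
    exact ⟨h, hd, le_rfl, Or.inl rfl⟩

theorem J_od {d p : ℕ} (hd : Squarefree d) (hp : p % 8 = 1) :
    J((d : ℤ) | p) = J((p : ℤ) | od d) := by
  obtain ⟨h1, _, _, h4⟩ := od_spec hd
  have hp4 : p % 4 = 1 := by omega
  rw [jacobiSym.quadratic_reciprocity_one_mod_four hp4 h1]
  rcases h4 with h4 | h4
  · rw [← h4]
  · conv_lhs => rw [h4]
    push_cast
    rw [jacobiSym.mul_left]
    have hodd : Odd p := by rw [Nat.odd_iff]; omega
    rw [jacobiSym.at_two hodd]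
    have : ZMod.χ₈ (p : ZMod 8) = 1 := by
      rw [ZMod.χ₈_nat_eq_if_mod_eight]
      rw [if_neg (by omega), if_pos (by omega)]
    rw [this, one_mul]

/-- `chr m` for `m ≠ 0`. -/
noncomputable def chr' (m : ℕ) : DirichletCharacter ℂ m :=
  if h : m ≠ 0 then haveI : NeZero m := ⟨h⟩; chr m else 1

theorem chr'_apply {m : ℕ} (hm : m ≠ 0) (n : ℕ) :
    chr' m (n : ZMod m) = ((J((n : ℤ) | m) : ℤ) : ℂ) := by
  have : NeZero m := ⟨hm⟩
  rw [chr', dif_pos hm]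
  exact chr_apply m n

theorem chr'_prim {m : ℕ} (hm : Odd m) (hs : Squarefree m) : (chr' m).IsPrimitive := by
  have h0 : m ≠ 0 := hs.ne_zero
  have : NeZero m := ⟨h0⟩
  rw [chr', dif_pos h0]
  exact chr_prim m hm hs

theorem count {T z r : ℕ} (hr : T ^ 4 ≤ (2 * z) ^ r) (hz : 1 ≤ z) (D : Finset ℕ)
    (hD : ∀ m ∈ D, Odd m ∧ Squarefree m ∧ 2 ≤ m ∧ m ≤ T ^ 2 ∧
      ((E8 z).card : ℝ) / 2 ≤ ∑ p ∈ E8 z, ((J((p : ℤ) | m) : ℤ) : ℝ)) :
    (D.card : ℝ) * (((E8 z).card : ℝ) / 2) ^ (2 * r) ≤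
      27 * (2 * z : ℝ) ^ r * (r.factorial * ((E8 z).card : ℝ) ^ r) := by
  classical
  set F : Finset (Σ q : ℕ, DirichletCharacter ℂ q) := D.image (fun m => ⟨m, chr' m⟩) with hF
  have hFp : ∀ j ∈ F, 2 ≤ j.1 ∧ j.1 ≤ T ^ 2 ∧ j.2.IsPrimitive := by
    intro j hj
    rw [hF, Finset.mem_image] at hj
    obtain ⟨m, hm, rfl⟩ := hj
    obtain ⟨a, b, c, d, _⟩ := hD m hm
    exact ⟨c, d, chr'_prim a b⟩
  have key := Pool.Agent.Helper4.ST.moment_bound_prim (T ^ 2) (2 * z) r r.factorial 1 zero_le_one F hFp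
    (E8 z) (fun m hm => by
      simp only [E8, mem_filter, mem_Ioc] at hm
      exact hm.1.2) (fun _ => 1) (fun _ => by simp)
    (fun n => Pool.Agent.Helper8.ArtinLS.card_factorisations_prime r (E8 z) (fun m hm => by
      simp only [E8, mem_filter, mem_Ioc] at hm
      exact hm.2.1) n)
  have hinj : Set.InjOn (fun m : ℕ => (⟨m, chr' m⟩ : Σ q : ℕ, DirichletCharacter ℂ q)) D := by
    intro a _ b _ h
    exact congrArg Sigma.fst h
  rw [hF, Finset.sum_image hinj] at key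
  have hlow : (D.card : ℝ) * (((E8 z).card : ℝ) / 2) ^ (2 * r) ≤
      ∑ m ∈ D, ‖∑ p ∈ E8 z, (1 : ℂ) * chr' m (p : ZMod m)‖ ^ (2 * r) := by
    rw [← nsmul_eq_mul, ← Finset.sum_const]
    refine Finset.sum_le_sum fun m hm => ?_
    obtain ⟨a, b, c, d, e⟩ := hD m hm
    refine pow_le_pow_left₀ (by positivity) ?_ _
    have h1 : ∑ p ∈ E8 z, (1 : ℂ) * chr' m (p : ZMod m) =
        ((∑ p ∈ E8 z, ((J((p : ℤ) | m) : ℤ) : ℝ) : ℝ) : ℂ) := by
      push_cast
      refine Finset.sum_congr rfl fun p _ => ?_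
      rw [one_mul, chr'_apply (by omega)]
    rw [h1, Complex.norm_real]
    exact e.trans (Real.le_norm_self _)
  refine hlow.trans (key.trans ?_)
  have hT4 : ((T ^ 2 : ℕ) : ℝ) ^ 2 ≤ (2 * z : ℝ) ^ r := by
    have : (((T ^ 2) ^ 2 : ℕ) : ℝ) ≤ (((2 * z) ^ r : ℕ) : ℝ) := by
      exact_mod_cast (by rw [← pow_mul]; exact hr : (T ^ 2) ^ 2 ≤ (2 * z) ^ r)
    push_cast at this ⊢
    exact this
  have h1r : (1 : ℝ) ≤ (2 * z : ℝ) ^ r := by
    have hz1 : (1 : ℝ) ≤ z := by exact_mod_cast hz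
    exact one_le_pow₀ (by linarith)
  have hpi : Real.pi < 3.15 := Real.pi_lt_d2
  have hpi0 := Real.pi_pos
  have hM : (((2 * z : ℕ) : ℝ)) = 2 * z := by push_cast; ring
  rw [hM, one_pow, one_mul]
  refine mul_le_mul_of_nonneg_right ?_ (by positivity)
  nlinarith [mul_le_mul_of_nonneg_left h1r hpi0.le, mul_le_mul_of_nonneg_right hpi.le
    (show (0 : ℝ) ≤ (2 * z : ℝ) ^ r by positivity)]

theorem count' {T z r : ℕ} (hr : T ^ 4 ≤ (2 * z) ^ r) (hz : 2 ≤ z)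
    (hE : (z : ℝ) ≤ 8 * Real.log z * (E8 z).card) (D : Finset ℕ)
    (hD : ∀ m ∈ D, Odd m ∧ Squarefree m ∧ 2 ≤ m ∧ m ≤ T ^ 2 ∧
      ((E8 z).card : ℝ) / 2 ≤ ∑ p ∈ E8 z, ((J((p : ℤ) | m) : ℤ) : ℝ)) :
    (D.card : ℝ) ≤ 27 * r.factorial * (64 * Real.log z) ^ r := by
  have h := count hr (by omega) D hD
  set e : ℝ := ((E8 z).card : ℝ) with he
  have hz0 : (0 : ℝ) < z := by exact_mod_cast (by omega : 0 < z)
  have hlz : 0 < Real.log (z : ℝ) := Real.log_pos (by exact_mod_cast (by omega : 1 < z))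
  have he0 : 0 < e := by
    by_contra hcon
    have : e = 0 := le_antisymm (not_lt.1 hcon) (by rw [he]; positivity)
    rw [this] at hE
    linarith
  have h2 : (e / 2) ^ (2 * r) = e ^ r * (e ^ r / 4 ^ r) := by
    rw [pow_mul, div_pow, div_pow, ← pow_mul, mul_comm 2 r, pow_mul]
    norm_num
    ring
  rw [h2] at h
  have her : 0 < e ^ r := by positivity
  have h3 : (D.card : ℝ) * (e ^ r / 4 ^ r) ≤ 27 * (2 * z : ℝ) ^ r * r.factorial := by
    have : e ^ r * ((D.card : ℝ) * (e ^ r / 4 ^ r)) ≤ e ^ r * (27 * (2 * z : ℝ) ^ r * r.factorial) := by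
      nlinarith [h]
    exact le_of_mul_le_mul_left this her
  have h4 : (D.card : ℝ) * e ^ r ≤ 27 * r.factorial * (8 * z : ℝ) ^ r := by
    have h5 : (8 * z : ℝ) ^ r = 4 ^ r * (2 * z : ℝ) ^ r := by rw [← mul_pow]; congr 1; ring
    rw [h5]
    have h6 : (D.card : ℝ) * (e ^ r / 4 ^ r) * 4 ^ r = (D.card : ℝ) * e ^ r := by
      field_simp
    rw [← h6]
    calc (D.card : ℝ) * (e ^ r / 4 ^ r) * 4 ^ r ≤ (27 * (2 * z : ℝ) ^ r * r.factorial) * 4 ^ r := by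
          gcongr
      _ = _ := by ring
  have h7 : (8 * z : ℝ) ^ r ≤ (64 * Real.log z) ^ r * e ^ r := by
    rw [← mul_pow]
    refine pow_le_pow_left₀ (by positivity) ?_ _
    nlinarith [hE]
  have h8 : (D.card : ℝ) * e ^ r ≤ (27 * r.factorial * (64 * Real.log z) ^ r) * e ^ r := by
    refine h4.trans ?_
    calc 27 * (r.factorial : ℝ) * (8 * z : ℝ) ^ r ≤
          27 * (r.factorial : ℝ) * ((64 * Real.log z) ^ r * e ^ r) := by gcongr
      _ = _ := by ring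
  exact le_of_mul_le_mul_right h8 her

/-- The sum over `E8 z` is large. -/
theorem sum_large {κ ε : ℝ} (hκ : 0 < κ) {T z d : ℕ} (hT : 2 ≤ T) (hz : (T : ℝ) ^ κ ≤ z)
    (hd : Squarefree d) (hdT : d ≤ T ^ 2)
    (hE : (z : ℝ) ≤ 8 * Real.log z * (E8 z).card)
    (hz2 : 2 ≤ z)
    (hbig : 16 * Real.log z * (2 * (z : ℝ) ^ (1 - ε) + 2 / κ) ≤ z)
    (hcard : (((Ioc z (2 * z)).filter (fun p : ℕ => p.Prime ∧ J((d : ℤ) | p) = -1)).card : ℝ) ≤
          (z : ℝ) ^ (1 - ε)) :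
    ((E8 z).card : ℝ) / 2 ≤ ∑ p ∈ E8 z, ((J((p : ℤ) | od d) : ℤ) : ℝ) := by
  classical
  have h1 : ∀ p ∈ E8 z, (1 : ℝ) - 2 * (if J((d : ℤ) | p) = -1 then 1 else 0) -
      (if J((d : ℤ) | p) = 0 then 1 else 0) ≤ ((J((p : ℤ) | od d) : ℤ) : ℝ) := by
    intro p hp
    simp only [E8, mem_filter, mem_Ioc] at hp
    rw [← J_od hd hp.2.2]
    rcases jacobiSym.trichotomy (d : ℤ) p with h | h | h
    · rw [h]; norm_num
    · rw [h]; norm_num
    · rw [h]; norm_num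
  have h2 := Finset.sum_le_sum h1
  rw [Finset.sum_sub_distrib, Finset.sum_sub_distrib, ← Finset.mul_sum] at h2
  simp only [Finset.sum_boole, Finset.sum_const, nsmul_eq_mul, mul_one] at h2
  have h3 : (((E8 z).filter (fun p => J((d : ℤ) | p) = -1)).card : ℝ) ≤ (z : ℝ) ^ (1 - ε) := by
    refine le_trans ?_ hcard
    refine Nat.cast_le.2 (Finset.card_le_card ?_)
    intro p hp
    simp only [E8, mem_filter, mem_Ioc] at hp ⊢
    exact ⟨hp.1.1, hp.1.2.1, hp.2⟩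
  have h4 : (((E8 z).filter (fun p => J((d : ℤ) | p) = 0)).card : ℝ) ≤ 2 / κ := by
    set S := (E8 z).filter (fun p => J((d : ℤ) | p) = 0) with hS
    have hSp : ∀ p ∈ S, p.Prime ∧ z < p ∧ p ∣ d := by
      intro p hp
      rw [hS, mem_filter] at hp
      obtain ⟨hp1, hp2⟩ := hp
      simp only [E8, mem_filter, mem_Ioc] at hp1
      refine ⟨hp1.2.1, hp1.1.1, ?_⟩
      have : Fact p.Prime := ⟨hp1.2.1⟩
      rw [← jacobiSym.legendreSym.to_jacobiSym, legendreSym.eq_zero_iff] at hp2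
      have h5 : ((d : ℕ) : ZMod p) = 0 := by exact_mod_cast hp2
      exact (ZMod.natCast_eq_zero_iff d p).1 h5
    have hsub : S ⊆ d.primeFactors := by
      intro p hp
      obtain ⟨a, _, c⟩ := hSp p hp
      exact Nat.mem_primeFactors.2 ⟨a, c, hd.ne_zero⟩
    have h5 : z ^ S.card ≤ d := by
      calc z ^ S.card ≤ ∏ p ∈ S, p := Finset.pow_card_le_prod S _ _ (fun p hp => (hSp p hp).2.1.le)
        _ ≤ ∏ p ∈ d.primeFactors, p :=
            Nat.le_of_dvd (Nat.pos_of_ne_zero (Finset.prod_ne_zero_iff.2 fun p hp =>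
              (Nat.prime_of_mem_primeFactors hp).ne_zero)) (Finset.prod_dvd_prod_of_subset _ _ _ hsub)
        _ ≤ d := Nat.le_of_dvd (Nat.pos_of_ne_zero hd.ne_zero) (Nat.prod_primeFactors_dvd d)
    have h6 : ((z : ℝ)) ^ S.card ≤ (T : ℝ) ^ (2 : ℕ) := by exact_mod_cast h5.trans hdT
    have hT1 : (1 : ℝ) < T := by exact_mod_cast (by omega : 1 < T)
    have h7 : (T : ℝ) ^ (κ * S.card) ≤ (T : ℝ) ^ (2 : ℝ) := by
      rw [Real.rpow_mul (by positivity), Real.rpow_natCast, Real.rpow_ofNat]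
      exact (pow_le_pow_left₀ (by positivity) hz _).trans h6
    rw [Real.rpow_le_rpow_left_iff hT1] at h7
    rw [le_div_iff₀ hκ]
    linarith
  have hlz : 0 < Real.log (z : ℝ) := Real.log_pos (by exact_mod_cast (by omega : 1 < z))
  have h5 : 2 * (z : ℝ) ^ (1 - ε) + 2 / κ ≤ ((E8 z).card : ℝ) / 2 := by
    have : 16 * Real.log z * (2 * (z : ℝ) ^ (1 - ε) + 2 / κ) ≤
        16 * Real.log z * (((E8 z).card : ℝ) / 2) := by
      refine hbig.trans (hE.trans (le_of_eq (by ring)))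
    exact le_of_mul_le_mul_left this (by positivity)
  linarith

theorem big {κ ε : ℝ} (hκ : 0 < κ) (hε : 0 < ε) : ∃ z₁ : ℕ, ∀ z : ℕ, z₁ ≤ z →
    16 * Real.log z * (2 * (z : ℝ) ^ (1 - ε) + 2 / κ) ≤ z := by
  have h1 : ∀ᶠ x : ℝ in atTop, ‖Real.log x‖ ≤ (1 / 64) * ‖x ^ ε‖ :=
    (isLittleO_log_rpow_atTop hε).def (by norm_num)
  have h2 : ∀ᶠ x : ℝ in atTop, ‖Real.log x‖ ≤ (κ / 64) * ‖x ^ (1 : ℝ)‖ :=
    (isLittleO_log_rpow_atTop one_pos).def (by positivity)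
  have h3 := ((h1.and h2).and (eventually_ge_atTop (1 : ℝ)))
  obtain ⟨z₁, hz₁⟩ := eventually_atTop.1 (tendsto_natCast_atTop_atTop.eventually h3)
  refine ⟨z₁, fun z hz => ?_⟩
  obtain ⟨⟨a, b⟩, c⟩ := hz₁ z hz
  have hz0 : (0 : ℝ) < z := by linarith
  have hl : 0 ≤ Real.log (z : ℝ) := Real.log_nonneg c
  rw [Real.norm_of_nonneg hl, Real.norm_of_nonneg (by positivity)] at a b
  rw [Real.rpow_one] at b
  have h4 : (z : ℝ) ^ ε * (z : ℝ) ^ (1 - ε) = z := by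
    rw [← Real.rpow_add hz0]
    simp
  have h5 : Real.log z * (z : ℝ) ^ (1 - ε) ≤ z / 64 := by
    calc Real.log z * (z : ℝ) ^ (1 - ε) ≤ (1 / 64 * (z : ℝ) ^ ε) * (z : ℝ) ^ (1 - ε) := by gcongr
      _ = z / 64 := by rw [mul_assoc, h4]; ring
  have h6 : Real.log z * (2 / κ) ≤ z / 32 := by
    calc Real.log z * (2 / κ) ≤ (κ / 64 * z) * (2 / κ) := by gcongr
      _ = z / 32 := by field_simp; norm_num
  nlinarith [h5, h6]

theorem fin (r : ℕ) {ν : ℝ} (hν : 0 < ν) : ∃ T₁ : ℕ, ∀ T : ℕ, T₁ ≤ T →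
    1 + 2 * (27 * r.factorial * (64 * Real.log T) ^ r) ≤ (T : ℝ) ^ ν := by
  have h1 : ∀ᶠ x : ℝ in atTop, ‖Real.log x ^ (r : ℝ)‖ ≤
      (1 / (2 * (54 * r.factorial * 64 ^ r))) * ‖x ^ ν‖ :=
    (isLittleO_log_rpow_rpow_atTop (r : ℝ) hν).def (by positivity)
  have h2 : ∀ᶠ x : ℝ in atTop, 2 ≤ x ^ ν := (tendsto_rpow_atTop hν).eventually_ge_atTop 2
  obtain ⟨T₁, hT₁⟩ := eventually_atTop.1 (tendsto_natCast_atTop_atTop.eventually
    ((h1.and h2).and (eventually_ge_atTop (1 : ℝ))))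
  refine ⟨T₁, fun T hT => ?_⟩
  obtain ⟨⟨a, b⟩, c⟩ := hT₁ T hT
  have hl : 0 ≤ Real.log (T : ℝ) := Real.log_nonneg c
  rw [Real.norm_of_nonneg (by positivity), Real.norm_of_nonneg (by positivity), Real.rpow_natCast] at a
  have hK : (0 : ℝ) < 54 * r.factorial * 64 ^ r := by positivity
  have h3 : 54 * r.factorial * 64 ^ r * Real.log T ^ r ≤ (T : ℝ) ^ ν / 2 := by
    calc 54 * (r.factorial : ℝ) * 64 ^ r * Real.log T ^ r ≤
          54 * (r.factorial : ℝ) * 64 ^ r * (1 / (2 * (54 * r.factorial * 64 ^ r)) * (T : ℝ) ^ ν) := by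
            gcongr
      _ = (T : ℝ) ^ ν / 2 := by field_simp
  rw [mul_pow]
  nlinarith [h3]

end KR

open KR

open Classical in
theorem ker {κ ε ν : ℝ} (hκ : 0 < κ) (hε : 0 < ε) (hν : 0 < ν) : ∃ T₀ : ℕ, ∀ T : ℕ, T₀ ≤ T →
    ∀ z : ℕ, (T : ℝ) ^ κ ≤ z → z ≤ T → ∀ 𝒟 : Finset ℕ,
      (∀ d ∈ 𝒟, Squarefree d ∧ 1 < d ∧ d ≤ T ^ 2 ∧
        (((Ioc z (2 * z)).filter (fun p : ℕ => p.Prime ∧ J((d : ℤ) | p) = -1)).card : ℝ) ≤
          (z : ℝ) ^ (1 - ε)) →
      (𝒟.card : ℝ) ≤ (T : ℝ) ^ ν := by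
  obtain ⟨z₀, hz₀⟩ := E8_card
  obtain ⟨z₁, hz₁⟩ := big (ε := ε) hκ hε
  obtain ⟨r, hr⟩ := exists_nat_ge (4 / κ)
  obtain ⟨T₁, hT₁⟩ := fin r hν
  have hlim : ∀ᶠ T : ℕ in atTop, ((max (max z₀ z₁) 2 : ℕ) : ℝ) ≤ (T : ℝ) ^ κ :=
    ((tendsto_rpow_atTop hκ).comp tendsto_natCast_atTop_atTop).eventually_ge_atTop _
  obtain ⟨T₂, hT₂⟩ := eventually_atTop.1 hlim
  refine ⟨max (max T₁ T₂) 2, fun T hT z hz hzT 𝒟 h𝒟 => ?_⟩
  have hTT1 : T₁ ≤ T := by omega
  have hTT2 : T₂ ≤ T := by omega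
  have hT2 : 2 ≤ T := by omega
  have hzz : max (max z₀ z₁) 2 ≤ z := by exact_mod_cast (hT₂ T hTT2).trans hz
  have hz2 : 2 ≤ z := by omega
  have hzz0 : z₀ ≤ z := by omega
  have hzz1 : z₁ ≤ z := by omega
  have hE := hz₀ z hzz0
  have hB := hz₁ z hzz1
  have hT1 : (1 : ℝ) < T := by exact_mod_cast (by omega : 1 < T)
  have hr4 : T ^ 4 ≤ (2 * z) ^ r := by
    have h1 : (T : ℝ) ^ (4 : ℕ) ≤ (z : ℝ) ^ r := by
      calc (T : ℝ) ^ (4 : ℕ) = (T : ℝ) ^ (4 : ℝ) := by norm_cast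
        _ ≤ (T : ℝ) ^ (κ * r) := by
            refine Real.rpow_le_rpow_of_exponent_le hT1.le ?_
            rw [div_le_iff₀ hκ] at hr
            linarith
        _ = ((T : ℝ) ^ κ) ^ r := by rw [Real.rpow_mul (by positivity), Real.rpow_natCast]
        _ ≤ (z : ℝ) ^ r := pow_le_pow_left₀ (by positivity) hz _
    have h2 : T ^ 4 ≤ z ^ r := by exact_mod_cast h1
    exact h2.trans (Nat.pow_le_pow_left (by omega) _)
  set D := (𝒟.image od).filter (fun m => 2 ≤ m) with hD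
  have hDc := count' hr4 hz2 hE D (by
    intro m hm
    rw [hD, mem_filter, mem_image] at hm
    obtain ⟨⟨d, hd, rfl⟩, hm2⟩ := hm
    obtain ⟨a1, a2, a3, a4⟩ := h𝒟 d hd
    obtain ⟨b1, b2, b3, b4⟩ := od_spec a1
    exact ⟨b1, b2, hm2, b3.trans a3, sum_large hκ hT2 hz a1 a3 hE hz2 hB a4⟩)
  have hsub : 𝒟 ⊆ {2} ∪ (D ∪ D.image (fun m => 2 * m)) := by
    intro d hd
    obtain ⟨a1, a2, a3, a4⟩ := h𝒟 d hd
    obtain ⟨b1, b2, b3, b4⟩ := od_spec a1
    have hmem : 2 ≤ od d → od d ∈ D := fun h => by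
      rw [hD, mem_filter, mem_image]
      exact ⟨⟨d, hd, rfl⟩, h⟩
    simp only [mem_union, mem_singleton, mem_image]
    rcases b4 with b4 | b4
    · right; left
      rw [b4]
      exact hmem (by omega)
    · by_cases h2 : 2 ≤ od d
      · right; right
        exact ⟨od d, hmem h2, b4.symm⟩
      · left
        obtain ⟨k, hk⟩ := b1
        omega
  have hcard : 𝒟.card ≤ 1 + (D.card + D.card) := by
    refine (Finset.card_le_card hsub).trans ?_
    refine (Finset.card_union_le _ _).trans ?_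
    have h1 : (D ∪ D.image (fun m => 2 * m)).card ≤ D.card + D.card :=
      (Finset.card_union_le _ _).trans (Nat.add_le_add_left Finset.card_image_le _)
    simpa using h1
  have hcr : (𝒟.card : ℝ) ≤ 1 + (D.card + D.card) := by exact_mod_cast hcard
  have hlog : Real.log z ≤ Real.log T :=
    Real.log_le_log (by exact_mod_cast (by omega : 0 < z)) (by exact_mod_cast hzT)
  have hlz : 0 ≤ Real.log (z : ℝ) := Real.log_nonneg (by exact_mod_cast (by omega : 1 ≤ z))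
  have hfin := hT₁ T hTT1
  have h9 : 27 * (r.factorial : ℝ) * (64 * Real.log z) ^ r ≤
      27 * (r.factorial : ℝ) * (64 * Real.log T) ^ r := by gcongr
  linarith

end Pool.Agent.Helper27.IQ
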