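import Mathlib

/-!
# IQ / Knl: square roots, squarefree kernels and their multiplicities
-/

set_option autoImplicit false

namespace Pool.Agent.Helper27.IQ

open Finset
open scoped NumberTheorySymbols

/-- The set of the square roots. -/
theorem root_set (A : Set ℕ) (α β : ℤ) (hα : 0 < α) (R : ℝ) (hR : 1 ≤ R) (B : Finset ℕ)
    (hB : ∀ b ∈ B, b ∈ A ∧ (b : ℝ) ≤ R ∧ ∃ m : ℤ, m ^ 2 = α * (b : ℤ) + β) (Y : ℕ)
    (hY : Y = ⌊Real.sqrt ((α + |β| : ℤ) * R)⌋₊) :
    ∃ N : Finset ℕ, N ⊆ range (Y + 1) ∧ N.card = B.card ∧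
      ∀ m ∈ N, ∃ b ∈ A, (m : ℤ) ^ 2 = α * (b : ℤ) + β := by
  classical
  choose! hbA hbR r hr using hB
  refine ⟨B.image (fun b => (r b).natAbs), ?_, ?_, ?_⟩
  · intro m hm
    obtain ⟨b, hb, rfl⟩ := mem_image.1 hm
    rw [mem_range, Nat.lt_succ_iff, hY]
    apply Nat.le_floor
    apply Real.le_sqrt_of_sq_le
    have h1 : (((r b).natAbs : ℝ)) ^ 2 = α * b + β := by
      rw [Nat.cast_natAbs, Int.cast_abs, sq_abs]
      exact_mod_cast hr b hb
    rw [h1]
    have h2 := hbR b hb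
    have hα' : (0 : ℝ) < α := by exact_mod_cast hα
    have h3 : (β : ℝ) ≤ |(β : ℝ)| := le_abs_self _
    have h4 : |(β : ℝ)| ≤ |(β : ℝ)| * R := le_mul_of_one_le_right (abs_nonneg _) hR
    have h5 : (α : ℝ) * b ≤ α * R := mul_le_mul_of_nonneg_left h2 hα'.le
    push_cast
    rw [add_mul]
    linarith
  · apply card_image_of_injOn
    intro b hb b' hb' h
    simp only at h
    have h1 : α * (b : ℤ) + β = α * (b' : ℤ) + β := by
      rw [← hr b hb, ← hr b' hb', ← Int.natAbs_sq (r b), ← Int.natAbs_sq (r b'), h]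
    have h2 : α * (b : ℤ) = α * (b' : ℤ) := by linarith
    have h3 := mul_left_cancel₀ hα.ne' h2
    exact_mod_cast h3
  · intro m hm
    obtain ⟨b, hb, rfl⟩ := mem_image.1 hm
    refine ⟨b, hbA b hb, ?_⟩
    rw [Int.natAbs_sq]
    exact hr b hb

theorem kernel {u : ℕ} (hu : 0 < u) (hs : ¬ IsSquare u) : ∃ d g : ℕ, u = d * g ^ 2 ∧ Squarefree d ∧
    1 < d ∧ 0 < g ∧ ¬ IsSquare d := by
  obtain ⟨d, g, h1, h2⟩ := Nat.sq_mul_squarefree u
  have hg : 0 < g := by
    rcases Nat.eq_zero_or_pos g with rfl | h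
    · simp at h1
      omega
    · exact h
  have hd : 0 < d := by
    rcases Nat.eq_zero_or_pos d with rfl | h
    · simp at h1
      omega
    · exact h
  have hsq : ¬ IsSquare d := by
    rintro ⟨e, rfl⟩
    apply hs
    exact ⟨g * e, by rw [← h1]; ring⟩
  refine ⟨d, g, by rw [← h1]; ring, h2, ?_, hg, hsq⟩
  rcases Nat.lt_or_ge 1 d with h | h
  · exact h
  · exfalso
    have : d = 1 := by omega
    subst this
    exact hsq ⟨1, rfl⟩

open Classical in
theorem count_compare (d g z : ℕ) :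
    ((Ioc z (2 * z)).filter (fun p : ℕ => p.Prime ∧ J((d : ℤ) | p) = -1)).card ≤
      ((Ioc z (2 * z)).filter (fun p : ℕ => p.Prime ∧ J(((d * g ^ 2 : ℕ) : ℤ) | p) = -1)).card +
      (((Ioc z (2 * z)).filter (fun p : ℕ => p.Prime)).filter (fun p : ℕ => p ∣ g)).card := by
  have h : (Ioc z (2 * z)).filter (fun p : ℕ => p.Prime ∧ J((d : ℤ) | p) = -1) ⊆
      (Ioc z (2 * z)).filter (fun p : ℕ => p.Prime ∧ J(((d * g ^ 2 : ℕ) : ℤ) | p) = -1) ∪
      ((Ioc z (2 * z)).filter (fun p : ℕ => p.Prime)).filter (fun p : ℕ => p ∣ g) := by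
    intro p hp
    obtain ⟨h1, h2, h3⟩ := mem_filter.1 hp
    rw [mem_union]
    by_cases hpg : p ∣ g
    · right
      exact mem_filter.2 ⟨mem_filter.2 ⟨h1, h2⟩, hpg⟩
    · left
      rw [mem_filter]
      refine ⟨h1, h2, ?_⟩
      have h4 : IsCoprime ((g : ℕ) : ℤ) ((p : ℕ) : ℤ) := by
        rw [Nat.isCoprime_iff_coprime]
        exact ((Nat.Prime.coprime_iff_not_dvd h2).2 hpg).symm
      push_cast
      rw [jacobiSym.mul_left, jacobiSym.pow_left, h3, jacobiSym.sq_one (Int.isCoprime_iff_gcd_eq_one.1 h4)]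
      norm_num
  exact (card_le_card h).trans (card_union_le _ _)

theorem mult (α β : ℤ) (hα : 0 < α) (T d : ℕ) (hT : 1 ≤ T) (hd : 0 < d) (F : Finset ℕ)
    (hF : ∀ f ∈ F, f ≤ T ∧ ∃ g : ℕ, α * (f : ℤ) + β = ((d * g ^ 2 : ℕ) : ℤ)) :
    (F.card : ℝ) ≤ Real.sqrt ((α + |β| : ℤ) * T / d) + 1 := by
  classical
  choose! hfT r hr using hF
  set G := ⌊Real.sqrt ((α + |β| : ℤ) * T / d)⌋₊ with hG
  have hα' : (0 : ℝ) < α := by exact_mod_cast hα
  have hd' : (0 : ℝ) < d := by exact_mod_cast hd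
  have hT' : (1 : ℝ) ≤ T := by exact_mod_cast hT
  have h1 : F.card ≤ (range (G + 1)).card := by
    apply card_le_card_of_injOn r
    · intro f hf
      rw [mem_coe, mem_range, Nat.lt_succ_iff]
      apply Nat.le_floor
      apply Real.le_sqrt_of_sq_le
      rw [le_div_iff₀ hd']
      have h2 : ((r f : ℝ)) ^ 2 * d = α * f + β := by
        have h3 := hr f hf
        have h4 : ((α * (f : ℤ) + β : ℤ) : ℝ) = (((d * r f ^ 2 : ℕ) : ℤ) : ℝ) := by rw [h3]
        push_cast at h4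
        linarith
      rw [h2]
      have h3 : (β : ℝ) ≤ |(β : ℝ)| := le_abs_self _
      have h4 : |(β : ℝ)| ≤ |(β : ℝ)| * T := le_mul_of_one_le_right (abs_nonneg _) hT'
      have h5 : (α : ℝ) * f ≤ α * T :=
        mul_le_mul_of_nonneg_left (by exact_mod_cast hfT f hf) hα'.le
      push_cast
      rw [add_mul]
      linarith
    · intro f hf f' hf' h
      have h2 : α * (f : ℤ) + β = α * (f' : ℤ) + β := by
        rw [hr f hf, hr f' hf', h]
      have h3 : α * (f : ℤ) = α * (f' : ℤ) := by linarith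
      have h4 := mul_left_cancel₀ hα.ne' h3
      exact_mod_cast h4
  rw [card_range] at h1
  have h2 : (F.card : ℝ) ≤ G + 1 := by exact_mod_cast h1
  have h3 : (G : ℝ) ≤ Real.sqrt ((α + |β| : ℤ) * T / d) := Nat.floor_le (Real.sqrt_nonneg _)
  linarith

end Pool.Agent.Helper27.IQ
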