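import Mathlib

/-!
# IQ / Num: inequalities for large `T`
-/

set_option autoImplicit false

namespace Pool.Agent.Helper27.IQ

open Filter

theorem ev_ge {a : ℝ} (ha : 0 < a) (M : ℝ) : ∀ᶠ T : ℕ in atTop, M ≤ (T : ℝ) ^ a :=
  ((tendsto_rpow_atTop ha).comp tendsto_natCast_atTop_atTop).eventually_ge_atTop M

theorem ev_log {a : ℝ} (ha : 0 < a) : ∀ᶠ T : ℕ in atTop, ((Nat.log 2 T : ℝ) + 1) ≤ (T : ℝ) ^ a := by
  have h1 : ∀ᶠ x : ℝ in atTop, ‖Real.log x‖ ≤ (1 / 4 : ℝ) * ‖x ^ a‖ :=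
    (isLittleO_log_rpow_atTop ha).def (by norm_num)
  have h2 : ∀ᶠ T : ℕ in atTop, ‖Real.log (T : ℝ)‖ ≤ (1 / 4 : ℝ) * ‖(T : ℝ) ^ a‖ :=
    tendsto_natCast_atTop_atTop.eventually h1
  filter_upwards [h2, ev_ge ha 2, eventually_ge_atTop 1] with T h3 h4 h5
  have hT : (1 : ℝ) ≤ T := by exact_mod_cast h5
  have hl : 0 ≤ Real.log T := Real.log_nonneg hT
  rw [Real.norm_of_nonneg hl, Real.norm_of_nonneg (by positivity)] at h3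
  have h6 : (Nat.log 2 T : ℝ) * Real.log 2 ≤ Real.log T := by
    rw [← Real.log_pow]
    apply Real.log_le_log (by positivity)
    exact_mod_cast Nat.pow_log_le_self 2 (by omega)
  have h7 : (0.69 : ℝ) < Real.log 2 := by
    have := Real.log_two_gt_d9
    linarith
  have h8 : (0 : ℝ) ≤ Nat.log 2 T := Nat.cast_nonneg _
  nlinarith

/-- The list of all inequalities which are needed. -/
theorem num {c δ ε κ₁ κ₂ κ μ : ℝ} (hc : 0 < c) (hδ : 0 < δ) (hδ1 : δ ≤ 1) (hε : ε = δ / 8)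
    (hκ₁ : 0 < κ₁) (h12 : κ₁ < κ₂) (h2c : κ₂ ≤ c * ε / 4) (h28 : κ₂ ≤ 1 / 8) (hκ0 : 0 < κ) (hκ : c * κ ≤ κ₁)
    (hμ : 0 < μ) (hμ1 : μ ≤ 1 / 2) (K₀ : ℝ) (hK₀ : 1 ≤ K₀) (Y₀ : ℕ) (Z₀ b : ℝ) :
    ∀ᶠ T : ℕ in atTop, 2 ≤ T ∧ Z₀ ≤ (T : ℝ) ^ κ₁ ∧ 2 * (T : ℝ) ^ κ₁ ≤ (T : ℝ) ^ κ₂ ∧
      Y₀ ≤ ⌊Real.sqrt (K₀ * (T : ℝ) ^ c)⌋₊ ∧
      ((⌊Real.sqrt (K₀ * (T : ℝ) ^ c)⌋₊ : ℕ) : ℝ) ^ κ ≤ (T : ℝ) ^ κ₁ ∧
      (T : ℝ) ^ κ₂ ≤ ((⌊Real.sqrt (K₀ * (T : ℝ) ^ c)⌋₊ : ℕ) : ℝ) ^ ε ∧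
      ((⌊Real.sqrt (K₀ * (T : ℝ) ^ c)⌋₊ : ℕ) : ℝ) ^ (1 / 2 + 3 * ε) ≤ (T : ℝ) ^ (c * (1 / 4 + δ)) ∧
      K₀ ≤ T ∧
      b + ((Nat.log 2 T : ℝ) + 1) * (T : ℝ) ^ κ₂ +
        (T : ℝ) ^ (μ / 8) * (Real.sqrt (K₀ * T / (T : ℝ) ^ μ) + 1) ≤ (T : ℝ) ^ (1 / 2 - μ / 8) := by
  have hκ₂ : 0 < κ₂ := hκ₁.trans h12
  have hε0 : 0 < ε := by rw [hε]; positivity
  have e1 := ev_ge hκ₁ Z₀
  have e2 := ev_ge (sub_pos.2 h12) 2
  have e3 := ev_ge (show 0 < c / 4 by positivity) (max 2 Y₀)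
  have e4 := ev_ge hc K₀
  have e5 := ev_ge (show 0 < c * δ / 2 by positivity) K₀
  have e6 := ev_ge (show (0 : ℝ) < 1 by norm_num) K₀
  have e7 := ev_ge (show (0 : ℝ) < 1 / 2 - μ / 8 by linarith) (3 * b)
  have e8 := ev_log (show (0 : ℝ) < 1 / 8 by norm_num)
  have e9 := ev_ge (show (0 : ℝ) < 1 / 8 by norm_num) 3
  have e10 := ev_ge (show (0 : ℝ) < μ / 8 by positivity) (3 * (Real.sqrt K₀ + 1))
  filter_upwards [e1, e2, e3, e4, e5, e6, e7, e8, e9, e10, eventually_ge_atTop 2] with T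
    e1 e2 e3 e4 e5 e6 e7 e8 e9 e10 e11
  have hT2 : (2 : ℝ) ≤ T := by exact_mod_cast e11
  have hT0 : (0 : ℝ) < T := by linarith
  have hT1 : (1 : ℝ) ≤ T := by linarith
  set Y := ⌊Real.sqrt (K₀ * (T : ℝ) ^ c)⌋₊ with hY
  set s := Real.sqrt (K₀ * (T : ℝ) ^ c) with hs
  have hs0 : 0 ≤ s := Real.sqrt_nonneg _
  have hsq : s ^ 2 = K₀ * (T : ℝ) ^ c := Real.sq_sqrt (by positivity)
  have hYs : (Y : ℝ) ≤ s := Nat.floor_le hs0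
  have hsY : s < Y + 1 := Nat.lt_floor_add_one _
  set x := (T : ℝ) ^ (c / 4) with hx
  have hx2 : 2 ≤ x := (le_max_left _ _).trans e3
  have hxY : (Y₀ : ℝ) ≤ x := (le_max_right _ _).trans e3
  have hxc : x ^ 4 = (T : ℝ) ^ c := by
    rw [hx, ← Real.rpow_natCast, ← Real.rpow_mul hT0.le]
    congr 1
    push_cast
    ring
  have hsx : x ^ 2 ≤ s := by
    apply Real.le_sqrt_of_sq_le
    calc (x ^ 2) ^ 2 = x ^ 4 := by ring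
      _ = 1 * (T : ℝ) ^ c := by rw [hxc, one_mul]
      _ ≤ K₀ * (T : ℝ) ^ c := by gcongr
  have hxY' : x ≤ Y := by nlinarith
  refine ⟨e11, e1, ?_, ?_, ?_, ?_, ?_, ?_, ?_⟩
  · have h1 : (T : ℝ) ^ κ₂ = (T : ℝ) ^ (κ₂ - κ₁) * (T : ℝ) ^ κ₁ := by
      rw [← Real.rpow_add hT0]
      congr 1
      ring
    rw [h1]
    gcongr
  · have h1 : (Y₀ : ℝ) ≤ Y := hxY.trans hxY'
    exact_mod_cast h1
  · have h1 : s ≤ (T : ℝ) ^ c := by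
      apply Real.sqrt_le_iff.2
      refine ⟨by positivity, ?_⟩
      rw [sq]
      gcongr
    calc (Y : ℝ) ^ κ ≤ ((T : ℝ) ^ c) ^ κ :=
          Real.rpow_le_rpow (by positivity) (hYs.trans h1) hκ0.le
      _ = (T : ℝ) ^ (c * κ) := by rw [← Real.rpow_mul hT0.le]
      _ ≤ (T : ℝ) ^ κ₁ := Real.rpow_le_rpow_of_exponent_le hT1 hκ
  · calc (T : ℝ) ^ κ₂ ≤ (T : ℝ) ^ (c * ε / 4) := Real.rpow_le_rpow_of_exponent_le hT1 h2c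
      _ = x ^ ε := by
          rw [hx, ← Real.rpow_mul hT0.le]
          congr 1
          ring
      _ ≤ (Y : ℝ) ^ ε := Real.rpow_le_rpow (by positivity) hxY' hε0.le
  · have h1 : s ≤ (T : ℝ) ^ (c * (1 / 2 + δ / 4)) := by
      apply Real.sqrt_le_iff.2
      refine ⟨by positivity, ?_⟩
      calc K₀ * (T : ℝ) ^ c ≤ (T : ℝ) ^ (c * δ / 2) * (T : ℝ) ^ c := by gcongr
        _ = ((T : ℝ) ^ (c * (1 / 2 + δ / 4))) ^ 2 := by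
            rw [← Real.rpow_natCast, ← Real.rpow_mul hT0.le, ← Real.rpow_add hT0]
            congr 1
            push_cast
            ring
    calc (Y : ℝ) ^ (1 / 2 + 3 * ε) ≤ ((T : ℝ) ^ (c * (1 / 2 + δ / 4))) ^ (1 / 2 + 3 * ε) :=
          Real.rpow_le_rpow (by positivity) (hYs.trans h1) (by positivity)
      _ = (T : ℝ) ^ (c * ((1 / 2 + δ / 4) * (1 / 2 + 3 * ε))) := by
          rw [← Real.rpow_mul hT0.le]
          congr 1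
          ring
      _ ≤ _ := by
          apply Real.rpow_le_rpow_of_exponent_le hT1
          apply mul_le_mul_of_nonneg_left _ hc.le
          rw [hε]
          nlinarith
  · rwa [Real.rpow_one] at e6
  · have hM : (T : ℝ) ^ (1 / 2 - μ / 8) = (T : ℝ) ^ (1 / 2 - μ / 8) := rfl
    have t1 : b ≤ (T : ℝ) ^ (1 / 2 - μ / 8) / 3 := by linarith
    have t2 : ((Nat.log 2 T : ℝ) + 1) * (T : ℝ) ^ κ₂ ≤ (T : ℝ) ^ (1 / 2 - μ / 8) / 3 := by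
      have h1 : (T : ℝ) ^ κ₂ ≤ (T : ℝ) ^ (1 / 8 : ℝ) := Real.rpow_le_rpow_of_exponent_le hT1 h28
      have h2 : ((Nat.log 2 T : ℝ) + 1) * (T : ℝ) ^ κ₂ ≤ (T : ℝ) ^ (1 / 8 : ℝ) * (T : ℝ) ^ (1 / 8 : ℝ) := by
        gcongr
      have h3 : (T : ℝ) ^ (1 / 8 : ℝ) * (T : ℝ) ^ (1 / 8 : ℝ) * 3 ≤ (T : ℝ) ^ (1 / 2 - μ / 8) := by
        calc (T : ℝ) ^ (1 / 8 : ℝ) * (T : ℝ) ^ (1 / 8 : ℝ) * 3 ≤
              (T : ℝ) ^ (1 / 8 : ℝ) * (T : ℝ) ^ (1 / 8 : ℝ) * (T : ℝ) ^ (1 / 8 : ℝ) := by gcongr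
          _ = (T : ℝ) ^ (3 / 8 : ℝ) := by
              rw [← Real.rpow_add hT0, ← Real.rpow_add hT0]
              congr 1
              norm_num
          _ ≤ _ := Real.rpow_le_rpow_of_exponent_le hT1 (by linarith)
      linarith
    have t3 : (T : ℝ) ^ (μ / 8) * (Real.sqrt (K₀ * T / (T : ℝ) ^ μ) + 1) ≤
        (T : ℝ) ^ (1 / 2 - μ / 8) / 3 := by
      have h1 : Real.sqrt (K₀ * T / (T : ℝ) ^ μ) = Real.sqrt K₀ * (T : ℝ) ^ (1 / 2 - μ / 2) := by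
        rw [mul_div_assoc, Real.sqrt_mul (by linarith)]
        congr 1
        rw [Real.sqrt_eq_rpow]
        have h2 : (T : ℝ) / (T : ℝ) ^ μ = (T : ℝ) ^ (1 - μ) := by
          rw [Real.rpow_sub hT0, Real.rpow_one]
        rw [h2, ← Real.rpow_mul hT0.le]
        congr 1
        ring
      have h3 : (1 : ℝ) ≤ (T : ℝ) ^ (1 / 2 - μ / 2) := Real.one_le_rpow hT1 (by linarith)
      have h4 : Real.sqrt (K₀ * T / (T : ℝ) ^ μ) + 1 ≤ (Real.sqrt K₀ + 1) * (T : ℝ) ^ (1 / 2 - μ / 2) := by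
        rw [h1, add_mul, one_mul]
        linarith
      have h5 : (T : ℝ) ^ (μ / 8) * (Real.sqrt (K₀ * T / (T : ℝ) ^ μ) + 1) * 3 ≤
          (T : ℝ) ^ (1 / 2 - μ / 8) := by
        calc (T : ℝ) ^ (μ / 8) * (Real.sqrt (K₀ * T / (T : ℝ) ^ μ) + 1) * 3
            ≤ (T : ℝ) ^ (μ / 8) * ((Real.sqrt K₀ + 1) * (T : ℝ) ^ (1 / 2 - μ / 2)) * 3 := by gcongr
          _ = (T : ℝ) ^ (μ / 8) * (3 * (Real.sqrt K₀ + 1)) * (T : ℝ) ^ (1 / 2 - μ / 2) := by ring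
          _ ≤ (T : ℝ) ^ (μ / 8) * (T : ℝ) ^ (μ / 8) * (T : ℝ) ^ (1 / 2 - μ / 2) := by gcongr
          _ = (T : ℝ) ^ (1 / 2 - μ / 4) := by
              rw [← Real.rpow_add hT0, ← Real.rpow_add hT0]
              congr 1
              ring
          _ ≤ _ := Real.rpow_le_rpow_of_exponent_le hT1 (by linarith)
      linarith
    linarith

end Pool.Agent.Helper27.IQ
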