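import Mathlib
import Pool.Agent.RHN.SFl
import Pool.Agent.Helper27.IS.Jac

/-!
# IQ / Sml: a small nonsquare is a nonresidue modulo many primes of some dyadic interval

The lower bound of the fundamental lemma (`fl_ap`) for the rough numbers in one residue class `c mod 4d` with `(d | c) = -1`, against the
number of multiples of primes `p` with `(d | p) = -1` in dyadic intervals.
-/

set_option autoImplicit false

namespace Pool.Agent.Helper27.IQ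

open Finset Filter
open scoped NumberTheorySymbols Topology

namespace SM

theorem exp_le_one_sub {p : ℕ} (hp : p.Prime) : Real.exp (-2 * (1 / (p : ℝ))) ≤ 1 - 1 / (p : ℝ) := by
  have h3 : (2 : ℝ) ≤ p := by exact_mod_cast hp.two_le
  have h4 : 0 ≤ 1 / (p : ℝ) := by positivity
  have h5 : 1 / (p : ℝ) ≤ 1 / 2 := one_div_le_one_div_of_le (by norm_num) h3
  set t : ℝ := 1 / (p : ℝ) with ht
  rw [show -2 * t = -(2 * t) by ring, Real.exp_neg]
  have h6 : 2 * t + 1 ≤ Real.exp (2 * t) := Real.add_one_le_exp _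
  have h7 : 0 < Real.exp (2 * t) := Real.exp_pos _
  rw [inv_le_iff_one_le_mul₀ h7]
  have h8 : 0 ≤ t * (1 - 2 * t) := mul_nonneg h4 (by linarith)
  have h9 : (1 - t) * (2 * t + 1) ≤ (1 - t) * Real.exp (2 * t) :=
    mul_le_mul_of_nonneg_left h6 (by linarith)
  linarith

/-- A lower bound for the sieve product. -/
theorem VV_lower {δ : ℝ} (hδ : 0 < δ) : ∃ c₀ : ℝ, 0 < c₀ ∧ ∀ z q : ℕ, 1 ≤ z →
    c₀ * (z : ℝ) ^ (-δ) ≤ Pool.Agent.RHN.VV z q := by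
  classical
  obtain ⟨M, hM2, hM⟩ : ∃ M : ℕ, 2 ≤ M ∧ 2 / δ ≤ Real.log M := by
    have h1 : ∀ᶠ M : ℕ in atTop, 2 / δ ≤ Real.log (M : ℝ) :=
      (Real.tendsto_log_atTop.comp tendsto_natCast_atTop_atTop).eventually_ge_atTop _
    obtain ⟨M, h2, h3⟩ := (h1.and (eventually_ge_atTop 2)).exists
    exact ⟨M, h3, h2⟩
  have hlM : 0 < Real.log (M : ℝ) := Real.log_pos (by exact_mod_cast (by omega : 1 < M))
  refine ⟨Real.exp (-2 * M - 10 / Real.log M), Real.exp_pos _, fun z q hz => ?_⟩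
  have hz0 : (0 : ℝ) < z := by exact_mod_cast hz
  have hlz : 0 ≤ Real.log (z : ℝ) := Real.log_nonneg (by exact_mod_cast hz)
  have hcard : ∀ n : ℕ, ∑ p ∈ Helper35.prm 0 n, 1 / (p : ℝ) ≤ n := by
    intro n
    calc ∑ p ∈ Helper35.prm 0 n, 1 / (p : ℝ) ≤ ∑ p ∈ Helper35.prm 0 n, (1 : ℝ) := by
          refine Finset.sum_le_sum fun p hp => ?_
          rw [Helper35.mem_prm] at hp
          have : (1 : ℝ) ≤ p := by exact_mod_cast hp.2.one_lt.le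
          rw [div_le_one (by linarith)]
          exact this
      _ = (Helper35.prm 0 n).card := by simp
      _ ≤ n := by
          have : (Helper35.prm 0 n).card ≤ n := by
            refine (Finset.card_filter_le _ _).trans ?_
            simp
          exact_mod_cast this
  have hsum : ∑ p ∈ Helper35.prm 0 z, 1 / (p : ℝ) ≤ M + (Real.log z + 5) / Real.log M := by
    rcases le_total z M with h | h
    · have h1 : (z : ℝ) ≤ M := by exact_mod_cast h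
      have h2 := hcard z
      have : 0 ≤ (Real.log z + 5) / Real.log M := by positivity
      linarith
    · have h1 := Helper35.recip_upper hM2 h
      have h2 := Helper35.prm_sum_sub (fun p : ℕ => 1 / (p : ℝ)) h
      have h3 := hcard M
      have h4 : (Real.log z - Real.log M + 5) / Real.log M ≤ (Real.log z + 5) / Real.log M :=
        div_le_div_of_nonneg_right (by linarith) hlM.le
      linarith
  have hVV : Real.exp (-2 * ∑ p ∈ Helper35.prm 0 z, 1 / (p : ℝ)) ≤ Pool.Agent.RHN.VV z q := by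
    have h1 : ∑ p ∈ (Icc 1 z).filter (fun p => p.Prime ∧ ¬ p ∣ q), 1 / (p : ℝ) ≤
        ∑ p ∈ Helper35.prm 0 z, 1 / (p : ℝ) := by
      refine Finset.sum_le_sum_of_subset_of_nonneg ?_ (fun _ _ _ => by positivity)
      intro p hp
      rw [mem_filter, mem_Icc] at hp
      rw [Helper35.mem_prm]
      exact ⟨⟨by omega, hp.1.2⟩, hp.2.1⟩
    calc Real.exp (-2 * ∑ p ∈ Helper35.prm 0 z, 1 / (p : ℝ))
        ≤ Real.exp (-2 * ∑ p ∈ (Icc 1 z).filter (fun p => p.Prime ∧ ¬ p ∣ q), 1 / (p : ℝ)) :=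
          Real.exp_le_exp.2 (by linarith)
      _ = ∏ p ∈ (Icc 1 z).filter (fun p => p.Prime ∧ ¬ p ∣ q), Real.exp (-2 * (1 / (p : ℝ))) := by
          rw [Finset.mul_sum, Real.exp_sum]
      _ ≤ ∏ p ∈ (Icc 1 z).filter (fun p => p.Prime ∧ ¬ p ∣ q), (1 - 1 / (p : ℝ)) := by
          refine Finset.prod_le_prod (fun _ _ => (Real.exp_pos _).le) fun p hp => ?_
          rw [mem_filter] at hp
          exact exp_le_one_sub hp.2.1
      _ = Pool.Agent.RHN.VV z q := rfl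
  refine le_trans ?_ hVV
  rw [Real.rpow_def_of_pos hz0, ← Real.exp_add]
  refine Real.exp_le_exp.2 ?_
  have h1 : 2 * ((Real.log z + 5) / Real.log M) ≤ 10 / Real.log M + δ * Real.log z := by
    have h2 : 2 ≤ δ * Real.log M := by
      rw [div_le_iff₀ hδ] at hM
      linarith
    have h3 : 2 * Real.log z / Real.log M ≤ δ * Real.log z := by
      rw [div_le_iff₀ hlM]
      nlinarith
    have h4 : 2 * ((Real.log z + 5) / Real.log M) = 10 / Real.log M + 2 * Real.log z / Real.log M := by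
      field_simp
      ring
    linarith
  nlinarith [hsum, h1]

/-- A prime factor with symbol `-1`. -/
theorem prime_factor {a : ℤ} : ∀ n : ℕ, n ≠ 0 → J(a | n) = -1 →
    ∃ p : ℕ, p.Prime ∧ p ∣ n ∧ J(a | p) = -1 := by
  intro n
  induction n using Nat.strong_induction_on with
  | _ n ih =>
    intro hn hJ
    have hn1 : n ≠ 1 := by
      rintro rfl
      rw [jacobiSym.one_right] at hJ
      omega
    have hp := Nat.minFac_prime hn1
    obtain ⟨m, hm⟩ := Nat.minFac_dvd n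
    set p := n.minFac with hpdef
    have hm0 : m ≠ 0 := by
      rintro rfl
      omega
    have : NeZero p := ⟨hp.ne_zero⟩
    have : NeZero m := ⟨hm0⟩
    rw [hm, jacobiSym.mul_right] at hJ
    rcases jacobiSym.trichotomy a p with h | h | h
    · rw [h, zero_mul] at hJ
      omega
    · rw [h, one_mul] at hJ
      have hlt : m < n := by
        rw [hm]
        exact lt_mul_of_one_lt_left (Nat.pos_of_ne_zero hm0) hp.one_lt
      obtain ⟨p', a1, a2, a3⟩ := ih m hlt hm0 hJ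
      exact ⟨p', a1, a2.trans ⟨p, by rw [hm]; ring⟩, a3⟩
    · exact ⟨p, hp, ⟨m, hm⟩, h⟩

open Classical in
/-- The upper bound for the rough numbers in the class. -/
theorem upper {ε κ₁ κ₂ : ℝ} (hκ1 : 0 < κ₁) (hε : 0 < ε) {T d y x c : ℕ} (hT : 1 ≤ T)
    (hd : 0 < d) (hc : Odd c) (hJ : J((d : ℤ) | c) = -1)
    (hy : 2 * (T : ℝ) ^ κ₁ ≤ y) (hx : (x : ℝ) ≤ (T : ℝ) ^ κ₂)
    (hbad : ∀ i : ℕ, (T : ℝ) ^ κ₁ ≤ (2 : ℝ) ^ i → (2 : ℝ) ^ i ≤ (T : ℝ) ^ κ₂ →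
      (((Ioc (2 ^ i) (2 * 2 ^ i)).filter (fun p : ℕ => p.Prime ∧ J((d : ℤ) | p) = -1)).card : ℝ) ≤
        ((2 : ℝ) ^ i) ^ (1 - ε)) :
    (((Ioc 0 (0 + x)).filter (fun n => Pool.Agent.RHN.Rough y n ∧ n ≡ c [MOD 4 * d])).card : ℝ) ≤
      (Nat.log 2 x + 1) * (x * (T : ℝ) ^ (-(κ₁ * ε))) := by
  have hT0 : (0 : ℝ) < T := by exact_mod_cast hT
  set N := (Ioc 0 (0 + x)).filter (fun n => Pool.Agent.RHN.Rough y n ∧ n ≡ c [MOD 4 * d]) with hN
  set I := (range (Nat.log 2 x + 1)).filter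
    (fun i : ℕ => (T : ℝ) ^ κ₁ ≤ (2 : ℝ) ^ i ∧ (2 : ℝ) ^ i ≤ (T : ℝ) ^ κ₂) with hI
  set S : ℕ → Finset ℕ := fun i =>
    (Ioc (2 ^ i) (2 * 2 ^ i)).filter (fun p : ℕ => p.Prime ∧ J((d : ℤ) | p) = -1) with hS
  have hcov : N ⊆ I.biUnion (fun i => (S i).biUnion (fun p => (Ioc 0 x).filter (fun n => p ∣ n))) := by
    intro n hn
    rw [hN, mem_filter, mem_Ioc] at hn
    obtain ⟨⟨hn0, hnx⟩, ⟨_, hr⟩, hmod⟩ := hn
    have hn4 : n % 4 = c % 4 := by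
      have : n ≡ c [MOD 4] := hmod.of_mul_right d
      exact this
    have hnodd : Odd n := by
      rw [Nat.odd_iff] at hc ⊢
      omega
    have hJn : J((d : ℤ) | n) = -1 := by
      rw [jacobiSym.mod_right' d hnodd, show n % (4 * d) = c % (4 * d) from hmod,
        ← jacobiSym.mod_right' d hc]
      exact hJ
    obtain ⟨p, hp, hpn, hpJ⟩ := prime_factor n (by omega) hJn
    have hpy : y < p := by
      by_contra hcon
      exact hr p hp (not_lt.1 hcon) hpn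
    have hpx : p ≤ x := (Nat.le_of_dvd hn0 hpn).trans (by omega)
    have hp1 : 1 ≤ p - 1 := by have := hp.two_le; omega
    set i := Nat.log 2 (p - 1) with hi
    have h1 : 2 ^ i ≤ p - 1 := Nat.pow_log_le_self 2 (by omega)
    have h2 : p - 1 < 2 ^ (i + 1) := Nat.lt_pow_succ_log_self (by norm_num) _
    rw [pow_succ] at h2
    have hiL : i ≤ Nat.log 2 x := Nat.log_mono_right (by omega)
    rw [mem_biUnion]
    refine ⟨i, ?_, ?_⟩
    · rw [hI, mem_filter, mem_range]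
      refine ⟨by omega, ?_, ?_⟩
      · have h3 : (y : ℝ) ≤ 2 * (2 : ℝ) ^ i := by
          exact_mod_cast (by omega : y ≤ 2 * 2 ^ i)
        linarith
      · refine le_trans ?_ hx
        exact_mod_cast (by omega : 2 ^ i ≤ x)
    · rw [mem_biUnion]
      refine ⟨p, ?_, ?_⟩
      · simp only [hS, mem_filter, mem_Ioc]
        exact ⟨⟨by omega, by omega⟩, hp, hpJ⟩
      · rw [mem_filter, mem_Ioc]
        exact ⟨⟨hn0, by omega⟩, hpn⟩
  have hcard1 : (N.card : ℝ) ≤ ∑ i ∈ I, ∑ p ∈ S i, (x : ℝ) / p := by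
    have h1 : N.card ≤ ∑ i ∈ I, ∑ p ∈ S i, ((Ioc 0 x).filter (fun n => p ∣ n)).card := by
      refine (Finset.card_le_card hcov).trans (Finset.card_biUnion_le.trans ?_)
      exact Finset.sum_le_sum fun i _ => Finset.card_biUnion_le
    calc (N.card : ℝ) ≤ ((∑ i ∈ I, ∑ p ∈ S i, ((Ioc 0 x).filter (fun n => p ∣ n)).card : ℕ) : ℝ) := by
          exact_mod_cast h1
      _ = ∑ i ∈ I, ∑ p ∈ S i, (((Ioc 0 x).filter (fun n => p ∣ n)).card : ℝ) := by push_cast; rfl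
      _ ≤ _ := by
          refine Finset.sum_le_sum fun i _ => Finset.sum_le_sum fun p _ => ?_
          rw [Nat.Ioc_filter_dvd_card_eq_div]
          exact Nat.cast_div_le
  have hcard2 : ∀ i ∈ I, ∑ p ∈ S i, (x : ℝ) / p ≤ x * (T : ℝ) ^ (-(κ₁ * ε)) := by
    intro i hi
    rw [hI, mem_filter] at hi
    obtain ⟨_, h1, h2⟩ := hi
    have h2i : (0 : ℝ) < (2 : ℝ) ^ i := by positivity
    have h3 : ∑ p ∈ S i, (x : ℝ) / p ≤ ∑ p ∈ S i, (x : ℝ) / (2 : ℝ) ^ i := by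
      refine Finset.sum_le_sum fun p hp => ?_
      simp only [hS, mem_filter, mem_Ioc] at hp
      have h4 : (2 : ℝ) ^ i ≤ p := by exact_mod_cast hp.1.1.le
      exact div_le_div_of_nonneg_left (by positivity) h2i h4
    refine h3.trans ?_
    rw [Finset.sum_const, nsmul_eq_mul]
    have h5 : ((S i).card : ℝ) ≤ ((2 : ℝ) ^ i) ^ (1 - ε) := hbad i h1 h2
    have h6 : ((2 : ℝ) ^ i) ^ (1 - ε) / (2 : ℝ) ^ i = ((2 : ℝ) ^ i) ^ (-ε) := by
      rw [show (1 - ε) = -ε + 1 by ring, Real.rpow_add h2i, Real.rpow_one]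
      field_simp
    have h7 : ((2 : ℝ) ^ i) ^ (-ε) ≤ (T : ℝ) ^ (-(κ₁ * ε)) := by
      have h8 : (T : ℝ) ^ (-(κ₁ * ε)) = ((T : ℝ) ^ κ₁) ^ (-ε) := by
        rw [← Real.rpow_mul hT0.le]
        congr 1
        ring
      rw [h8]
      exact Real.rpow_le_rpow_of_nonpos (by positivity) h1 (by linarith)
    calc ((S i).card : ℝ) * (x / (2 : ℝ) ^ i) ≤ ((2 : ℝ) ^ i) ^ (1 - ε) * (x / (2 : ℝ) ^ i) := by
          gcongr
      _ = x * (((2 : ℝ) ^ i) ^ (1 - ε) / (2 : ℝ) ^ i) := by ring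
      _ ≤ x * (T : ℝ) ^ (-(κ₁ * ε)) := by
          rw [h6]
          gcongr
  refine hcard1.trans ((Finset.sum_le_sum hcard2).trans ?_)
  rw [Finset.sum_const, nsmul_eq_mul]
  refine mul_le_mul_of_nonneg_right ?_ (by positivity)
  have : I.card ≤ Nat.log 2 x + 1 := (Finset.card_filter_le _ _).trans (by simp)
  exact_mod_cast this

end SM

open SM

open Classical in
theorem sml {ε κ₂ : ℝ} (hε : 0 < ε) (hε1 : ε ≤ 1) (hκ : 0 < κ₂) (hκ1 : κ₂ ≤ 1) :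
    ∃ κ₁ μ : ℝ, 0 < κ₁ ∧ κ₁ < κ₂ ∧ 0 < μ ∧ ∃ T₀ : ℕ, ∀ T : ℕ, T₀ ≤ T → ∀ d : ℕ, 0 < d →
      ¬ IsSquare d → (d : ℝ) ≤ (T : ℝ) ^ μ → ∃ i : ℕ, (T : ℝ) ^ κ₁ ≤ (2 : ℝ) ^ i ∧
        (2 : ℝ) ^ i ≤ (T : ℝ) ^ κ₂ ∧ ((2 : ℝ) ^ i) ^ (1 - ε) <
          (((Ioc (2 ^ i) (2 * 2 ^ i)).filter (fun p : ℕ => p.Prime ∧ J((d : ℤ) | p) = -1)).card : ℝ) := by
  obtain ⟨C, hC1, hfl⟩ := Pool.Agent.RHN.fl_ap
  obtain ⟨b, hb1, hb⟩ : ∃ b : ℕ, 1 ≤ b ∧ C * (1 / 2) ^ b ≤ 1 / 2 := by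
    have h1 : Tendsto (fun b : ℕ => C * (1 / 2 : ℝ) ^ b) atTop (𝓝 (C * 0)) :=
      (tendsto_pow_atTop_nhds_zero_of_lt_one (by norm_num) (by norm_num)).const_mul C
    rw [mul_zero] at h1
    obtain ⟨b, h2, h3⟩ := ((h1.eventually_le_const (show (0 : ℝ) < 1 / 2 by norm_num)).and
      (eventually_ge_atTop 1)).exists
    exact ⟨b, h3, h2⟩
  obtain ⟨c₀, hc₀, hVV⟩ := VV_lower (δ := ε / 4) (by positivity)
  set κ₁ : ℝ := κ₂ / (8 * b + 40) with hκ₁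
  have hbp : (0 : ℝ) < 8 * b + 40 := by positivity
  have hκ₁0 : 0 < κ₁ := by positivity
  have hκ₁b : κ₁ * (8 * b + 40) = κ₂ := by rw [hκ₁]; field_simp
  have hb0 : (0 : ℝ) ≤ b := by positivity
  have hκ₁2 : 40 * κ₁ ≤ κ₂ := by nlinarith
  refine ⟨κ₁, κ₁ * ε / 4, hκ₁0, by linarith, by positivity, ?_⟩
  -- the growth conditions
  set A : ℝ := κ₁ * ε / 2 with hA
  have hA0 : 0 < A := by positivity
  have hAκ : A ≤ κ₁ / 2 := by rw [hA]; nlinarith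
  set K : ℝ := 4 ^ (4 * b + 8) with hK
  have hK0 : 0 < K := by positivity
  have e1 : ∀ᶠ X : ℝ in atTop, ‖Real.log X‖ ≤ (c₀ / 512) * ‖X ^ A‖ :=
    (isLittleO_log_rpow_atTop hA0).def (by positivity)
  have e2 : ∀ᶠ X : ℝ in atTop, 256 * K / c₀ ≤ X ^ (κ₂ / 2 - A) :=
    (tendsto_rpow_atTop (by linarith)).eventually_ge_atTop _
  have e3 : ∀ᶠ X : ℝ in atTop, 2 ≤ X ^ κ₂ := (tendsto_rpow_atTop hκ).eventually_ge_atTop 2
  obtain ⟨T₀, hT₀⟩ := eventually_atTop.1 (tendsto_natCast_atTop_atTop.eventually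
    ((e1.and e2).and (e3.and (eventually_ge_atTop (4 : ℝ)))))
  refine ⟨T₀, fun T hT d hd hsq hdT => ?_⟩
  obtain ⟨⟨g1, g2⟩, g3, g4⟩ := hT₀ T hT
  by_contra hcon
  push Not at hcon
  have hT0 : (0 : ℝ) < T := by linarith
  have hT1 : (1 : ℝ) ≤ T := by linarith
  have hTn : 1 ≤ T := by exact_mod_cast hT1
  obtain ⟨c, hcodd, hcJ⟩ := Helper27.IS.exists_jacobi_neg_one hd hsq
  set a : ℕ := ⌈(T : ℝ) ^ κ₁⌉₊ with ha
  have ha1 : (T : ℝ) ^ κ₁ ≤ a := Nat.le_ceil _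
  have hTκ1 : (1 : ℝ) ≤ (T : ℝ) ^ κ₁ := Real.one_le_rpow hT1 hκ₁0.le
  have ha2 : (a : ℝ) ≤ 2 * (T : ℝ) ^ κ₁ := by
    have := Nat.ceil_lt_add_one (show (0 : ℝ) ≤ (T : ℝ) ^ κ₁ by positivity)
    linarith
  have ha0 : 1 ≤ a := by
    have : (1 : ℝ) ≤ a := hTκ1.trans ha1
    exact_mod_cast this
  set x : ℕ := ⌊(T : ℝ) ^ κ₂⌋₊ with hx
  have hx1 : (x : ℝ) ≤ (T : ℝ) ^ κ₂ := Nat.floor_le (by positivity)
  have hx2 : (T : ℝ) ^ κ₂ ≤ 2 * x := by
    have := Nat.lt_floor_add_one ((T : ℝ) ^ κ₂)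
    linarith
  have hx0 : (0 : ℝ) < x := by linarith
  have hxn : 1 ≤ x := by exact_mod_cast hx0
  have hcop : Nat.Coprime c (4 * d) := by
    have h1 : Nat.Coprime c d := by
      have h2 : J((d : ℤ) | c) ≠ 0 := by rw [hcJ]; norm_num
      have : NeZero c := ⟨by rintro rfl; simp at hcodd⟩
      rw [Ne, jacobiSym.eq_zero_iff_not_coprime, not_not, Int.gcd_natCast_natCast] at h2
      exact (Nat.coprime_comm.1 h2)
    have h2 : Nat.Coprime c 4 := by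
      have : Nat.Coprime c 2 := Nat.coprime_two_right.2 hcodd
      exact this.pow_right 2
    exact h2.mul_right h1
  have hlow := hfl (2 * a) b (4 * d) 0 x c (by omega) hb1 (by omega) hcop
  have hup := upper (κ₂ := κ₂) hκ₁0 hε (y := 2 * a) (x := x) hTn hd hcodd hcJ
    (by push_cast; linarith) hx1 hcon
  set Nn : ℝ := (((Ioc 0 (0 + x)).filter (fun n => Pool.Agent.RHN.Rough (2 * a) n ∧
    n ≡ c [MOD 4 * d])).card : ℝ) with hNn
  set V := Pool.Agent.RHN.VV (2 * a) (4 * d) with hV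
  have hV1 := hVV (2 * a) (4 * d) (by omega)
  rw [← hV] at hV1
  -- lower bound for `V`
  have hy4 : (((2 * a : ℕ)) : ℝ) ≤ 4 * (T : ℝ) ^ κ₁ := by push_cast; linarith
  have hy0 : (0 : ℝ) < ((2 * a : ℕ) : ℝ) := by exact_mod_cast (by omega : 0 < 2 * a)
  have hV2 : c₀ / 4 * (T : ℝ) ^ (-(A / 2)) ≤ V := by
    refine le_trans ?_ hV1
    have h1 : (4 * (T : ℝ) ^ κ₁) ^ (-(ε / 4)) ≤ (((2 * a : ℕ)) : ℝ) ^ (-(ε / 4)) :=
      Real.rpow_le_rpow_of_nonpos hy0 hy4 (by linarith)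
    have h2 : (4 * (T : ℝ) ^ κ₁) ^ (-(ε / 4)) = (4 : ℝ) ^ (-(ε / 4)) * (T : ℝ) ^ (-(A / 2)) := by
      rw [Real.mul_rpow (by norm_num) (by positivity), ← Real.rpow_mul hT0.le]
      congr 2
      rw [hA]
      ring
    have h3 : (1 / 4 : ℝ) ≤ (4 : ℝ) ^ (-(ε / 4)) := by
      calc (1 / 4 : ℝ) = (4 : ℝ) ^ (-1 : ℝ) := by rw [Real.rpow_neg_one]; norm_num
        _ ≤ (4 : ℝ) ^ (-(ε / 4)) := Real.rpow_le_rpow_of_exponent_le (by norm_num) (by linarith)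
    calc c₀ / 4 * (T : ℝ) ^ (-(A / 2)) = c₀ * ((1 / 4) * (T : ℝ) ^ (-(A / 2))) := by ring
      _ ≤ c₀ * ((4 : ℝ) ^ (-(ε / 4)) * (T : ℝ) ^ (-(A / 2))) := by gcongr
      _ ≤ c₀ * (((2 * a : ℕ)) : ℝ) ^ (-(ε / 4)) := by rw [← h2]; gcongr
  have hV0 : 0 ≤ V := le_trans (by positivity) hV2
  have hd0 : (0 : ℝ) < d := by exact_mod_cast hd
  -- the main term
  have hmain : x * (c₀ / 16 * (T : ℝ) ^ (-A)) ≤ (x : ℝ) / ((4 * d : ℕ) : ℝ) * V := by
    have h1 : (T : ℝ) ^ (-A) = (T : ℝ) ^ (-(A / 2)) * (T : ℝ) ^ (-(A / 2)) := by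
      rw [← Real.rpow_add hT0]
      congr 1
      ring
    have h2 : (T : ℝ) ^ (-(A / 2)) ≤ 1 / d := by
      rw [Real.rpow_neg hT0.le, ← one_div]
      refine one_div_le_one_div_of_le hd0 (hdT.trans (le_of_eq ?_))
      congr 1
      rw [hA]
      ring
    have h3 : (0 : ℝ) ≤ (T : ℝ) ^ (-(A / 2)) := by positivity
    calc x * (c₀ / 16 * (T : ℝ) ^ (-A)) = x / 4 * (T : ℝ) ^ (-(A / 2)) * (c₀ / 4 * (T : ℝ) ^ (-(A / 2))) := by
          rw [h1]; ring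
      _ ≤ x / 4 * (1 / d) * V := by gcongr
      _ = (x : ℝ) / ((4 * d : ℕ) : ℝ) * V := by
          push_cast
          field_simp
  have hM0 : 0 ≤ (x : ℝ) / ((4 * d : ℕ) : ℝ) * V := by positivity
  have hlow2 : (x : ℝ) / ((4 * d : ℕ) : ℝ) * V / 2 - ((2 * a : ℕ) : ℝ) ^ (4 * b + 8) ≤ Nn := by
    have h1 := (abs_le.1 hlow).1
    have h2 : C * (1 / 2) ^ b * ((x : ℝ) / ((4 * d : ℕ) : ℝ) * V) ≤
        1 / 2 * ((x : ℝ) / ((4 * d : ℕ) : ℝ) * V) := by gcongr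
    linarith
  -- the error term
  have herr : ((2 * a : ℕ) : ℝ) ^ (4 * b + 8) ≤ K * (T : ℝ) ^ (κ₂ / 2) := by
    calc ((2 * a : ℕ) : ℝ) ^ (4 * b + 8) ≤ (4 * (T : ℝ) ^ κ₁) ^ (4 * b + 8) :=
          pow_le_pow_left₀ hy0.le hy4 _
      _ = K * ((T : ℝ) ^ κ₁) ^ (4 * b + 8) := by rw [mul_pow]
      _ = K * (T : ℝ) ^ (κ₁ * (4 * b + 8 : ℕ)) := by
          rw [Real.rpow_mul hT0.le, Real.rpow_natCast]
      _ ≤ K * (T : ℝ) ^ (κ₂ / 2) := by
          refine mul_le_mul_of_nonneg_left (Real.rpow_le_rpow_of_exponent_le hT1 ?_) hK0.le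
          push_cast
          nlinarith
  have herr2 : K * (T : ℝ) ^ (κ₂ / 2) ≤ x * (c₀ / 128 * (T : ℝ) ^ (-A)) := by
    have h1 : 256 * K ≤ c₀ * (T : ℝ) ^ (κ₂ / 2 - A) := by
      rw [div_le_iff₀ hc₀] at g2
      linarith
    have h2 : (T : ℝ) ^ (κ₂ / 2 - A) * (T : ℝ) ^ (κ₂ / 2) = (T : ℝ) ^ κ₂ * (T : ℝ) ^ (-A) := by
      rw [← Real.rpow_add hT0, ← Real.rpow_add hT0]
      congr 1
      ring
    have h3 : 256 * K * (T : ℝ) ^ (κ₂ / 2) ≤ c₀ * ((T : ℝ) ^ κ₂ * (T : ℝ) ^ (-A)) := by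
      rw [← h2, ← mul_assoc]
      gcongr
    have h4 : (T : ℝ) ^ κ₂ * (T : ℝ) ^ (-A) ≤ 2 * x * (T : ℝ) ^ (-A) := by gcongr
    nlinarith [mul_le_mul_of_nonneg_left h4 hc₀.le]
  -- the upper bound
  have hlogx : ((Nat.log 2 x : ℝ) + 1) ≤ 4 * Real.log T := by
    have h1 : (Nat.log 2 x : ℝ) ≤ Real.log x / Real.log 2 := by
      have := Real.natLog_le_logb x 2
      rw [Real.log_div_log]
      exact_mod_cast this
    have h2 : Real.log (x : ℝ) ≤ Real.log T := by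
      refine Real.log_le_log hx0 (hx1.trans ?_)
      calc (T : ℝ) ^ κ₂ ≤ (T : ℝ) ^ (1 : ℝ) := Real.rpow_le_rpow_of_exponent_le hT1 hκ1
        _ = T := Real.rpow_one _
    have hl2 : (0.6931471803 : ℝ) < Real.log 2 := Real.log_two_gt_d9
    have hl4 : Real.log 4 ≤ Real.log T := Real.log_le_log (by norm_num) g4
    have hl4' : Real.log 4 = 2 * Real.log 2 := by
      rw [show (4 : ℝ) = 2 ^ 2 by norm_num, Real.log_pow]
      norm_num
    have h3 : Real.log x / Real.log 2 ≤ 2 * Real.log T := by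
      rw [div_le_iff₀ (by linarith)]
      nlinarith
    linarith
  have hfinal : ((Nat.log 2 x : ℝ) + 1) * (x * (T : ℝ) ^ (-(κ₁ * ε))) ≤ x * (c₀ / 128 * (T : ℝ) ^ (-A)) := by
    have h1 : (T : ℝ) ^ (-(κ₁ * ε)) = (T : ℝ) ^ (-A) * (T : ℝ) ^ (-A) := by
      rw [← Real.rpow_add hT0]
      congr 1
      rw [hA]
      ring
    have hl : 0 ≤ Real.log (T : ℝ) := Real.log_nonneg hT1
    rw [Real.norm_of_nonneg hl, Real.norm_of_nonneg (by positivity)] at g1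
    have h2 : Real.log T * (T : ℝ) ^ (-A) ≤ c₀ / 512 := by
      calc Real.log T * (T : ℝ) ^ (-A) ≤ c₀ / 512 * (T : ℝ) ^ A * (T : ℝ) ^ (-A) := by gcongr
        _ = c₀ / 512 := by
            rw [mul_assoc, ← Real.rpow_add hT0]
            simp
    calc ((Nat.log 2 x : ℝ) + 1) * (x * (T : ℝ) ^ (-(κ₁ * ε))) ≤
          (4 * Real.log T) * (x * ((T : ℝ) ^ (-A) * (T : ℝ) ^ (-A))) := by
            rw [h1]; gcongr
      _ = 4 * x * (T : ℝ) ^ (-A) * (Real.log T * (T : ℝ) ^ (-A)) := by ring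
      _ ≤ 4 * x * (T : ℝ) ^ (-A) * (c₀ / 512) := by gcongr
      _ = x * (c₀ / 128 * (T : ℝ) ^ (-A)) := by ring
  have hpos : 0 < x * (c₀ * (T : ℝ) ^ (-A)) := by positivity
  have hfl2 : x * (c₀ / 32 * (T : ℝ) ^ (-A)) - x * (c₀ / 128 * (T : ℝ) ^ (-A)) ≤
      x * (c₀ / 128 * (T : ℝ) ^ (-A)) := by
    have : x * (c₀ / 32 * (T : ℝ) ^ (-A)) = x * (c₀ / 16 * (T : ℝ) ^ (-A)) / 2 := by ring
    linarith
  nlinarith [hpos, hfl2]

end Pool.Agent.Helper27.IQ
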