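import Pool.Agent.Helper27.IQ.Occ
import Pool.Agent.Helper27.IQ.Ker
import Pool.Agent.Helper27.IQ.Sml
import Pool.Agent.Helper27.IQ.Ez
import Pool.Agent.Helper27.IQ.Knl
import Pool.Agent.Helper27.IQ.Num

/-!
# IQ / Asm: assembly
-/

set_option autoImplicit false

namespace Pool.Agent.Helper27.IQ

open Finset
open scoped NumberTheorySymbols

open Classical in
/-- The number of the primes in `(z, 2z]` modulo which `u` is a nonresidue. -/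
noncomputable def nr (u : ℤ) (z : ℕ) : ℕ :=
  ((Ioc z (2 * z)).filter (fun p : ℕ => p.Prime ∧ J(u | p) = -1)).card

open Classical in
theorem asm {c δ : ℝ} (hc : 0 < c) (hδ : 0 < δ) : ∃ η : ℝ, 0 < η ∧ ∀ α β : ℤ, 0 < α → ∀ L P₀ : ℕ,
    ∃ T₀ : ℕ, ∀ T : ℕ, T₀ ≤ T → ∀ A : Set ℕ,
      (∀ p : ℕ, p.Prime → P₀ ≤ p → 2 * ((fun a : ℕ => (a : ZMod p)) '' A).ncard ≤ p + L) →
      ∀ B : Finset ℕ, (∀ b ∈ B, b ∈ A ∧ (b : ℝ) ≤ (T : ℝ) ^ c ∧ ∃ m : ℤ, m ^ 2 = α * (b : ℤ) + β) →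
      (T : ℝ) ^ (c * (1 / 4 + δ)) ≤ B.card →
      ∀ E : Finset ℕ, (∀ f ∈ E, f ∈ A ∧ f ≤ T ∧ ¬ IsSquare (α * (f : ℤ) + β)) →
      (E.card : ℝ) ≤ (T : ℝ) ^ (1 / 2 - η) := by
  set δ₁ := min δ 1 with hδ₁
  have hd0 : 0 < δ₁ := lt_min hδ one_pos
  have hd1 : δ₁ ≤ 1 := min_le_right _ _
  set ε := δ₁ / 8 with hε
  have hε0 : 0 < ε := by positivity
  have hε8 : ε ≤ 1 / 8 := by rw [hε]; linarith
  set κ₂ := min (c * ε / 4) (1 / 8) with hκ₂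
  have hκ₂0 : 0 < κ₂ := lt_min (by positivity) (by norm_num)
  have hκ₂8 : κ₂ ≤ 1 / 8 := min_le_right _ _
  have hκ₂c : κ₂ ≤ c * ε / 4 := min_le_left _ _
  obtain ⟨κ₁, μ, hκ₁, h12, hμ, Ts, hsml⟩ := sml (ε := ε / 3) (κ₂ := κ₂) (by positivity) (by linarith)
    hκ₂0 (by linarith)
  set μ₁ := min μ (1 / 2) with hμ₁
  have hμ0 : 0 < μ₁ := lt_min hμ (by norm_num)
  have hμ2 : μ₁ ≤ 1 / 2 := min_le_right _ _
  have hμμ : μ₁ ≤ μ := min_le_left _ _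
  refine ⟨μ₁ / 8, by positivity, fun α β hα L P₀ => ?_⟩
  set κ := min (κ₁ / c) ε with hκ
  have hκ0 : 0 < κ := lt_min (by positivity) hε0
  have hκε : κ ≤ ε := min_le_right _ _
  have hκc : c * κ ≤ κ₁ := by
    calc c * κ ≤ c * (κ₁ / c) := mul_le_mul_of_nonneg_left (min_le_left _ _) hc.le
      _ = κ₁ := by field_simp
  obtain ⟨Y₀, hocc⟩ := occ hκ0 hκε hε8
  obtain ⟨Z₀, hez⟩ := ez hκ₁ hε0 (by linarith) L P₀
  obtain ⟨Tk, hker⟩ := ker (κ := κ₁) (ε := ε / 3) (ν := μ₁ / 8) hκ₁ (by positivity) (by positivity)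
  obtain ⟨Z₁, hZ₁⟩ := Filter.eventually_atTop.1
    (ev_ge (show 0 < 1 - ε / 3 by linarith) (2 / κ₁))
  set K₀ : ℤ := α + |β| with hK₀
  have hK₀1 : (1 : ℝ) ≤ (K₀ : ℤ) := by
    have h1 : 1 ≤ K₀ := by
      have := abs_nonneg β
      omega
    exact_mod_cast h1
  obtain ⟨Tn, hTn⟩ := Filter.eventually_atTop.1
    (num hc hd0 hd1 hε hκ₁ h12 hκ₂c hκ₂8 hκ0 hκc hμ0 hμ2 (K₀ : ℝ) hK₀1 Y₀
      (max (max Z₀ Z₁) 3) (((β.natAbs : ℕ) : ℝ) + 1))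
  refine ⟨max (max Ts Tk) Tn, fun T hT A hA B hB hBc E hE => ?_⟩
  obtain ⟨hT2, n1, n2, n3, n4, n5, n6, n7, n8⟩ := hTn T (by omega)
  have hTs := hsml T (by omega)
  have hTk := hker T (by omega)
  have hTr2 : (2 : ℝ) ≤ T := by exact_mod_cast hT2
  have hT1 : (1 : ℝ) ≤ T := by linarith
  have hT0 : (0 : ℝ) < T := by linarith
  -- the set of square roots
  set Y := ⌊Real.sqrt (K₀ * (T : ℝ) ^ c)⌋₊ with hY
  obtain ⟨N, hN1, hN2, hN3⟩ := root_set A α β hα ((T : ℝ) ^ c) (Real.one_le_rpow hT1 hc.le) B hB Y hY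
  have hNc : (Y : ℝ) ^ (1 / 2 + 3 * ε) ≤ N.card := by
    rw [hN2]
    refine n6.trans (le_trans ?_ hBc)
    apply Real.rpow_le_rpow_of_exponent_le hT1
    apply mul_le_mul_of_nonneg_left _ hc.le
    have := min_le_left δ 1
    linarith
  -- one dyadic block
  have hblock : ∀ z : ℕ, (T : ℝ) ^ κ₁ ≤ z → (z : ℝ) ≤ (T : ℝ) ^ κ₂ → ∀ F : Finset ℕ, F ⊆ E →
      (∀ f ∈ F, (z : ℝ) ^ (1 - ε / 3) / 2 ≤ (nr (α * (f : ℤ) + β) z : ℝ)) → F.card ≤ z := by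
    intro z hz1 hz2 F hFE hF
    have hzZ : Z₀ ≤ z := by
      have h1 : ((Z₀ : ℕ) : ℝ) ≤ z :=
        ((le_max_left _ _).trans (le_max_left _ _)).trans (n1.trans hz1)
      exact_mod_cast h1
    have ho := hocc Y n3 z (n4.trans hz1) (hz2.trans n5) N hN1 hNc
    exact hez z hzZ T hz1 A α β hA N hN3 ho F (fun f hf => ⟨(hE f (hFE hf)).1, (hE f (hFE hf)).2.1, hF f hf⟩)
  -- the blocks
  set I := (range (Nat.log 2 T + 1)).filter (fun i => (T : ℝ) ^ κ₁ ≤ (2 : ℝ) ^ i ∧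
    (2 : ℝ) ^ i ≤ (T : ℝ) ^ κ₂) with hI
  have hIc : (I.card : ℝ) ≤ (Nat.log 2 T : ℝ) + 1 := by
    have h1 : I.card ≤ Nat.log 2 T + 1 := by
      refine (card_filter_le _ _).trans ?_
      rw [card_range]
    exact_mod_cast h1
  have hmemI : ∀ i : ℕ, (T : ℝ) ^ κ₁ ≤ (2 : ℝ) ^ i → (2 : ℝ) ^ i ≤ (T : ℝ) ^ κ₂ → i ∈ I := by
    intro i h1 h2
    rw [hI, mem_filter, mem_range]
    refine ⟨?_, h1, h2⟩
    rw [Nat.lt_succ_iff]
    apply Nat.le_log_of_pow_le (by norm_num)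
    have h3 : (2 : ℝ) ^ i ≤ T := by
      refine h2.trans ?_
      calc (T : ℝ) ^ κ₂ ≤ (T : ℝ) ^ (1 : ℝ) := Real.rpow_le_rpow_of_exponent_le hT1 (by linarith)
        _ = T := Real.rpow_one _
    exact_mod_cast h3
  set Eg : ℕ → Finset ℕ := fun i => E.filter (fun f : ℕ =>
    ((2 ^ i : ℕ) : ℝ) ^ (1 - ε / 3) / 2 ≤ (nr (α * (f : ℤ) + β) (2 ^ i) : ℝ)) with hEg
  have hEgc : ((I.biUnion Eg).card : ℝ) ≤ ((Nat.log 2 T : ℝ) + 1) * (T : ℝ) ^ κ₂ := by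
    have h1 : ((I.biUnion Eg).card : ℝ) ≤ ∑ i ∈ I, ((Eg i).card : ℝ) := by
      exact_mod_cast card_biUnion_le
    have h2 : ∀ i ∈ I, ((Eg i).card : ℝ) ≤ (T : ℝ) ^ κ₂ := by
      intro i hi
      obtain ⟨-, h3, h4⟩ := mem_filter.1 hi
      have h5 := hblock (2 ^ i) (by push_cast; exact h3) (by push_cast; exact h4) (Eg i)
        (filter_subset _ _) (fun f hf => (mem_filter.1 hf).2)
      have h6 : ((Eg i).card : ℝ) ≤ ((2 ^ i : ℕ) : ℝ) := by exact_mod_cast h5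
      push_cast at h6
      exact h6.trans h4
    refine h1.trans ((sum_le_sum h2).trans ?_)
    rw [sum_const, nsmul_eq_mul]
    gcongr
  -- small and nonpositive values
  set En := E.filter (fun f : ℕ => α * (f : ℤ) + β ≤ 0) with hEn
  have hEnc : (En.card : ℝ) ≤ ((β.natAbs : ℕ) : ℝ) + 1 := by
    have h1 : En ⊆ range (β.natAbs + 1) := by
      intro f hf
      have h2 := (mem_filter.1 hf).2
      rw [mem_range, Nat.lt_succ_iff]
      have h3 : (f : ℤ) ≤ α * (f : ℤ) := by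
        have : (0 : ℤ) ≤ f := by positivity
        nlinarith
      have h4 : (f : ℤ) ≤ -β := by linarith
      omega
    have h2 := card_le_card h1
    rw [card_range] at h2
    exact_mod_cast h2
  -- the remaining elements
  set Eb := (E \ I.biUnion Eg) \ En with hEb
  have hval : ∀ f ∈ Eb, ∃ d g : ℕ, α * (f : ℤ) + β = ((d * g ^ 2 : ℕ) : ℤ) ∧ Squarefree d ∧ 1 < d ∧
      0 < g ∧ ¬ IsSquare d := by
    intro f hf
    obtain ⟨h1, h2⟩ := mem_sdiff.1 hf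
    obtain ⟨h3, h4⟩ := mem_sdiff.1 h1
    have h5 : 0 < α * (f : ℤ) + β := by
      by_contra hcon
      rw [not_lt] at hcon
      exact h2 (mem_filter.2 ⟨h3, hcon⟩)
    obtain ⟨u, hu⟩ := Int.eq_ofNat_of_zero_le h5.le
    have hu0 : 0 < u := by omega
    have hus : ¬ IsSquare u := by
      rintro ⟨w, hw⟩
      apply (hE f h3).2.2
      exact ⟨w, by rw [hu, hw]; push_cast; ring⟩
    obtain ⟨d, g, e1, e2, e3, e4, e5⟩ := kernel hu0 hus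
    exact ⟨d, g, by rw [hu, e1], e2, e3, e4, e5⟩
  choose! kd kg hk1 hk2 hk3 hk4 hk5 using hval
  have hKT : (K₀ : ℝ) ≤ T := n7
  have hvalT : ∀ f ∈ Eb, kd f * kg f ^ 2 ≤ T ^ 2 := by
    intro f hf
    have hfE : f ∈ E := (mem_sdiff.1 (mem_sdiff.1 hf).1).1
    have h1 := hk1 f hf
    have h2 : (f : ℤ) ≤ T := by exact_mod_cast (hE f hfE).2.1
    have h3 : K₀ ≤ T := by exact_mod_cast hKT
    have h4 : (((kd f * kg f ^ 2 : ℕ) : ℤ)) ≤ ((T ^ 2 : ℕ) : ℤ) := by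
      rw [← h1]
      push_cast
      have h5 : β ≤ |β| := le_abs_self _
      have h6 : (0 : ℤ) ≤ |β| := abs_nonneg _
      have h7 : (2 : ℤ) ≤ T := by exact_mod_cast hT2
      nlinarith
    exact_mod_cast h4
  -- nonresidues of the kernel
  have hnr : ∀ f ∈ Eb, ∀ i ∈ I, (nr (kd f) (2 ^ i) : ℝ) ≤ ((2 ^ i : ℕ) : ℝ) ^ (1 - ε / 3) := by
    intro f hf i hi
    obtain ⟨h1, h2⟩ := mem_sdiff.1 hf
    obtain ⟨h3, h4⟩ := mem_sdiff.1 h1
    obtain ⟨-, hi1, hi2⟩ := mem_filter.1 hi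
    have h5 : (nr (α * (f : ℤ) + β) (2 ^ i) : ℝ) < ((2 ^ i : ℕ) : ℝ) ^ (1 - ε / 3) / 2 := by
      by_contra hcon
      rw [not_lt] at hcon
      exact h4 (mem_biUnion.2 ⟨i, hi, mem_filter.2 ⟨h3, hcon⟩⟩)
    have h6 := count_compare (kd f) (kg f) (2 ^ i)
    have hzr : ((max (max Z₀ Z₁) 3 : ℕ) : ℝ) ≤ ((2 ^ i : ℕ) : ℝ) := by
      push_cast
      push_cast at n1
      exact n1.trans hi1
    have hz3 : max (max Z₀ Z₁) 3 ≤ 2 ^ i := by exact_mod_cast hzr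
    have hgT : kg f ≤ T := by
      have h7 := hvalT f hf
      have h8 := hk3 f hf
      by_contra hcon
      rw [not_le] at hcon
      have h9 : T ^ 2 < kg f ^ 2 := Nat.pow_lt_pow_left hcon (by norm_num)
      nlinarith
    have h7 := few_primes hκ₁ T (2 ^ i) (by omega) (by push_cast; exact hi1)
      ((Ioc (2 ^ i) (2 * 2 ^ i)).filter (fun p : ℕ => p.Prime)) (fun p hp => by
        obtain ⟨a, b⟩ := mem_filter.1 hp
        rw [mem_Ioc] at a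
        exact ⟨b, a.1⟩) (kg f) (hk4 f hf) hgT
    have h8 := hZ₁ (2 ^ i) (by omega)
    have h9 : (nr (kd f) (2 ^ i) : ℝ) ≤ (nr (α * (f : ℤ) + β) (2 ^ i) : ℝ) +
        ((((Ioc (2 ^ i) (2 * 2 ^ i)).filter (fun p : ℕ => p.Prime)).filter
          (fun p : ℕ => p ∣ kg f)).card : ℝ) := by
      rw [hk1 f hf]
      exact_mod_cast h6
    have h10 : 2 / κ₁ = 2 * (1 / κ₁) := by ring
    rw [h10] at h8
    linarith
  -- the kernels are not small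
  have hlarge : ∀ f ∈ Eb, (T : ℝ) ^ μ₁ ≤ kd f := by
    intro f hf
    by_contra hcon
    rw [not_le] at hcon
    have h1 : (kd f : ℝ) ≤ (T : ℝ) ^ μ :=
      hcon.le.trans (Real.rpow_le_rpow_of_exponent_le hT1 hμμ)
    obtain ⟨i, h2, h3, h4⟩ := hTs (kd f) (by have := hk3 f hf; omega) (hk5 f hf) h1
    have h5 := hnr f hf i (hmemI i h2 h3)
    push_cast at h5
    have h6 : (nr (kd f) (2 ^ i) : ℝ) = (((Ioc (2 ^ i) (2 * 2 ^ i)).filter
      (fun p : ℕ => p.Prime ∧ J(((kd f : ℕ) : ℤ) | p) = -1)).card : ℝ) := rfl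
    rw [h6] at h5
    linarith
  -- one block for the large sieve
  obtain ⟨i₀, hi₀⟩ : ∃ i₀, i₀ ∈ I := by
    obtain ⟨i, h1, h2⟩ : ∃ i : ℕ, (T : ℝ) ^ κ₁ ≤ (2 : ℝ) ^ i ∧ (2 : ℝ) ^ i ≤ 2 * (T : ℝ) ^ κ₁ := by
      have h3 : (1 : ℝ) ≤ (T : ℝ) ^ κ₁ := Real.one_le_rpow hT1 hκ₁.le
      obtain ⟨i, h4, h5⟩ := exists_nat_pow_near h3 (show (1 : ℝ) < 2 by norm_num)
      exact ⟨i + 1, h5.le, by rw [pow_succ]; linarith⟩
    exact ⟨i, hmemI i h1 (h2.trans n2)⟩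
  obtain ⟨-, hi1, hi2⟩ := mem_filter.1 hi₀
  have hD : (((Eb.image kd).card : ℕ) : ℝ) ≤ (T : ℝ) ^ (μ₁ / 8) := by
    apply hTk (2 ^ i₀) (by push_cast; exact hi1)
    · have h3 : (2 : ℝ) ^ i₀ ≤ T := by
        refine hi2.trans ?_
        calc (T : ℝ) ^ κ₂ ≤ (T : ℝ) ^ (1 : ℝ) := Real.rpow_le_rpow_of_exponent_le hT1 (by linarith)
          _ = T := Real.rpow_one _
      exact_mod_cast h3
    · intro d hd
      obtain ⟨f, hf, rfl⟩ := mem_image.1 hd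
      refine ⟨hk2 f hf, hk3 f hf, ?_, hnr f hf i₀ hi₀⟩
      have h1 := hvalT f hf
      have h2 := hk4 f hf
      have h3 : kd f * 1 ≤ kd f * kg f ^ 2 := Nat.mul_le_mul_left _ (Nat.one_le_pow _ _ h2)
      omega
  have hEbc : (Eb.card : ℝ) ≤ (T : ℝ) ^ (μ₁ / 8) * (Real.sqrt (K₀ * T / (T : ℝ) ^ μ₁) + 1) := by
    have h1 : Eb.card = ∑ d ∈ Eb.image kd, (Eb.filter (fun f => kd f = d)).card :=
      card_eq_sum_card_fiberwise (fun f hf => mem_image_of_mem _ hf)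
    have h2 : ∀ d ∈ Eb.image kd, ((Eb.filter (fun f => kd f = d)).card : ℝ) ≤
        Real.sqrt (K₀ * T / (T : ℝ) ^ μ₁) + 1 := by
      intro d hd
      obtain ⟨f₀, hf₀, rfl⟩ := mem_image.1 hd
      have h3 := mult α β hα T (kd f₀) (by omega) (by have := hk3 f₀ hf₀; omega)
        (Eb.filter (fun f => kd f = kd f₀)) (fun f hf => by
          obtain ⟨h4, h5⟩ := mem_filter.1 hf
          refine ⟨(hE f (mem_sdiff.1 (mem_sdiff.1 h4).1).1).2.1, kg f, ?_⟩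
          rw [hk1 f h4, h5])
      refine h3.trans ?_
      gcongr
      exact hlarge f₀ hf₀
    have h3 : (Eb.card : ℝ) = ∑ d ∈ Eb.image kd, ((Eb.filter (fun f => kd f = d)).card : ℝ) := by
      exact_mod_cast h1
    rw [h3]
    refine (sum_le_sum h2).trans ?_
    rw [sum_const, nsmul_eq_mul]
    gcongr
  -- total
  have hcover : E ⊆ (I.biUnion Eg ∪ En) ∪ Eb := by
    intro f hf
    rw [mem_union, mem_union]
    by_cases h1 : f ∈ I.biUnion Eg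
    · exact Or.inl (Or.inl h1)
    · by_cases h2 : f ∈ En
      · exact Or.inl (Or.inr h2)
      · exact Or.inr (mem_sdiff.2 ⟨mem_sdiff.2 ⟨hf, h1⟩, h2⟩)
  have htot : (E.card : ℝ) ≤ ((I.biUnion Eg).card : ℝ) + En.card + Eb.card := by
    have h1 := (card_le_card hcover).trans ((card_union_le _ _).trans
      (Nat.add_le_add_right (card_union_le _ _) _))
    exact_mod_cast h1
  linarith

end Pool.Agent.Helper27.IQ
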