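import Mathlib

/-!
# IQ / Lrg: a larger sieve where each prime sees only a part of the set

`E` a finite set, `P` a finite set of moduli, `S p ⊆ E` for `p ∈ P`. If `S p` occupies at most `t` classes modulo
`p`, every element of `E` lies in `S p` for at least `m` of the `p ∈ P`, and two different elements of `E` are congruent modulo at
most `D` of the `p ∈ P`, then `m ^ 2 |E| ≤ |P| t (|P| + |E| D)`.
-/

set_option autoImplicit false

namespace Pool.Agent.Helper27.IQ

open Finset

theorem fiber_pairs (S : Finset ℕ) (p : ℕ) :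
    ((S.card : ℝ)) ^ 2 ≤ ((S.image (fun n : ℕ => n % p)).card : ℝ) *
      (((S ×ˢ S).filter (fun q : ℕ × ℕ => q.1 % p = q.2 % p)).card : ℝ) := by
  classical
  set im := S.image (fun n : ℕ => n % p) with him
  set Z : ℕ → ℕ := fun r => (S.filter (fun b : ℕ => b % p = r)).card with hZ
  have h1 : S.card = ∑ r ∈ im, Z r := by
    rw [hZ]
    exact card_eq_sum_card_fiberwise (fun b hb => mem_image_of_mem _ hb)
  have h2 : ((S ×ˢ S).filter (fun q : ℕ × ℕ => q.1 % p = q.2 % p)).card = ∑ r ∈ im, Z r * Z r := by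
    have h3 : ((S ×ˢ S).filter (fun q : ℕ × ℕ => q.1 % p = q.2 % p)).card =
        ∑ r ∈ im, (((S ×ˢ S).filter (fun q : ℕ × ℕ => q.1 % p = q.2 % p)).filter
          (fun q : ℕ × ℕ => q.1 % p = r)).card := by
      apply card_eq_sum_card_fiberwise
      intro q hq
      have := (mem_product.1 (mem_filter.1 hq).1).1
      exact mem_image_of_mem _ this
    rw [h3]
    apply sum_congr rfl
    intro r _
    rw [hZ]
    simp only
    rw [← card_product]
    congr 1
    ext ⟨a, b⟩
    simp only [mem_filter, mem_product]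
    constructor
    · rintro ⟨⟨⟨ha, hb⟩, hab⟩, har⟩
      exact ⟨⟨ha, har⟩, hb, hab ▸ har⟩
    · rintro ⟨⟨ha, har⟩, hb, hbr⟩
      exact ⟨⟨⟨ha, hb⟩, har.trans hbr.symm⟩, har⟩
  rw [h1, h2]
  push_cast
  have := sq_sum_le_card_mul_sum_sq (s := im) (f := fun r => (Z r : ℝ))
  refine this.trans (le_of_eq ?_)
  congr 1
  apply sum_congr rfl
  intro r _
  ring

theorem pair_bound (E P : Finset ℕ) (S : ℕ → Finset ℕ) (hS : ∀ p ∈ P, S p ⊆ E) (t m D : ℝ)
    (ht : ∀ p ∈ P, (((S p).image (fun n : ℕ => n % p)).card : ℝ) ≤ t) (ht0 : 0 ≤ t) (hm0 : 0 ≤ m)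
    (hD0 : 0 ≤ D)
    (hm : ∀ f ∈ E, m ≤ ((P.filter (fun p => f ∈ S p)).card : ℝ))
    (hD : ∀ f ∈ E, ∀ f' ∈ E, f ≠ f' → ((P.filter (fun p => f % p = f' % p)).card : ℝ) ≤ D) :
    m ^ 2 * E.card ≤ P.card * t * (P.card + E.card * D) := by
  classical
  rcases Nat.eq_zero_or_pos E.card with h0 | hE
  · rw [h0]
    simp only [Nat.cast_zero, mul_zero, zero_mul, add_zero]
    positivity
  have hEr : (0 : ℝ) < E.card := by exact_mod_cast hE
  -- the total number of incidences
  have h1 : m * E.card ≤ ∑ p ∈ P, ((S p).card : ℝ) := by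
    have h2 : ∑ p ∈ P, (S p).card = ∑ f ∈ E, (P.filter (fun p => f ∈ S p)).card := by
      have h3 : ∀ p ∈ P, (S p).card = ∑ f ∈ E, if f ∈ S p then 1 else 0 := by
        intro p hp
        rw [← card_filter]
        congr 1
        ext f
        rw [mem_filter]
        exact ⟨fun h => ⟨hS p hp h, h⟩, fun h => h.2⟩
      rw [sum_congr rfl h3, sum_comm]
      refine sum_congr rfl fun f _ => ?_
      rw [card_filter]
    have h4 : ∑ p ∈ P, ((S p).card : ℝ) = ∑ f ∈ E, ((P.filter (fun p => f ∈ S p)).card : ℝ) := by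
      exact_mod_cast h2
    rw [h4]
    calc m * E.card = ∑ _f ∈ E, m := by rw [sum_const, nsmul_eq_mul, mul_comm]
      _ ≤ _ := sum_le_sum fun f hf => hm f hf
  have h2 : (m * E.card) ^ 2 ≤ P.card * ∑ p ∈ P, ((S p).card : ℝ) ^ 2 := by
    have h3 := sq_sum_le_card_mul_sum_sq (s := P) (f := fun p => ((S p).card : ℝ))
    refine le_trans ?_ h3
    exact pow_le_pow_left₀ (by positivity) h1 2
  -- the number of congruent pairs
  have h3 : ∑ p ∈ P, ((S p).card : ℝ) ^ 2 ≤ t * (P.card * E.card + E.card ^ 2 * D) := by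
    have h4 : ∀ p ∈ P, ((S p).card : ℝ) ^ 2 ≤
        t * (((E ×ˢ E).filter (fun q : ℕ × ℕ => q.1 % p = q.2 % p)).card : ℝ) := by
      intro p hp
      refine (fiber_pairs (S p) p).trans ?_
      apply mul_le_mul (ht p hp) _ (by positivity) ht0
      exact_mod_cast card_le_card (filter_subset_filter _
        (product_subset_product (hS p hp) (hS p hp)))
    refine (sum_le_sum h4).trans ?_
    rw [← mul_sum]
    refine mul_le_mul_of_nonneg_left ?_ ht0
    have h5 : ∑ p ∈ P, ((E ×ˢ E).filter (fun q : ℕ × ℕ => q.1 % p = q.2 % p)).card =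
        ∑ q ∈ E ×ˢ E, (P.filter (fun p => q.1 % p = q.2 % p)).card := by
      simp_rw [card_filter]
      exact sum_comm
    have h6 : ∑ p ∈ P, (((E ×ˢ E).filter (fun q : ℕ × ℕ => q.1 % p = q.2 % p)).card : ℝ) =
        ∑ q ∈ E ×ˢ E, ((P.filter (fun p => q.1 % p = q.2 % p)).card : ℝ) := by
      exact_mod_cast h5
    rw [h6]
    have h7 : ∀ q ∈ E ×ˢ E, ((P.filter (fun p => q.1 % p = q.2 % p)).card : ℝ) ≤
        (if q.1 = q.2 then (P.card : ℝ) else 0) + D := by
      intro q hq
      obtain ⟨hq1, hq2⟩ := mem_product.1 hq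
      split_ifs with h
      · have : ((P.filter (fun p => q.1 % p = q.2 % p)).card : ℝ) ≤ P.card := by
          exact_mod_cast card_filter_le _ _
        linarith
      · rw [zero_add]
        exact hD _ hq1 _ hq2 h
    refine (sum_le_sum h7).trans ?_
    rw [sum_add_distrib, sum_const, card_product, nsmul_eq_mul, sum_product]
    have h8 : ∑ x ∈ E, ∑ y ∈ E, (if x = y then (P.card : ℝ) else 0) = P.card * E.card := by
      simp only [sum_ite_eq]
      rw [sum_congr rfl (fun x hx => if_pos hx), sum_const, nsmul_eq_mul, mul_comm]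
    simp only
    rw [h8]
    push_cast
    nlinarith
  have h4 : (m * E.card) ^ 2 ≤ P.card * (t * (P.card * E.card + E.card ^ 2 * D)) :=
    h2.trans (mul_le_mul_of_nonneg_left h3 (Nat.cast_nonneg _))
  have h5 : (m ^ 2 * E.card) * E.card ≤ (P.card * t * (P.card + E.card * D)) * E.card := by
    calc (m ^ 2 * E.card) * E.card = (m * E.card) ^ 2 := by ring
      _ ≤ _ := h4
      _ = _ := by ring
  exact le_of_mul_le_mul_right h5 hEr

end Pool.Agent.Helper27.IQ
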