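import Pool.Agent.Helper76.OB.LSV

/-!
# IQ / Occ: a set of more than `√Y` integers up to `Y` occupies nearly all classes modulo most primes

PROOF.  Let `w = ⌈z^(1-ε)⌉`, `B` = the set of primes in question (in `(z, 2z]`, `N` misses at least `w` classes), and suppose
`B.card > z^(1-ε)`.  Let `j` be maximal with `(2 z)^j ≤ √Y` (`j ≤ 1/κ` as `z ≥ Y^κ`), `X = (2z)^j`.  `arith_large_sieve` with `M = 0`, `ω p = w` for
`p ∈ B`, `ω p = 0` otherwise (`ω p < p`, since `N` is nonempty): `N.card * LS ω X ≤ X^2 + 14 (Y+1) ≤ 30 Y`.  In `LS ω X` keep only the products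
`q = ∏ p ∈ s, p` of the subsets `s ⊆ B` with `s.card = j`; each has weight at least `(z^(-ε)/2)^j`, and there are `choose B.card j` of them.
-/

set_option autoImplicit false

namespace Pool.Agent.Helper27.IQ

open Finset Filter

open Pool.Agent.Helper76.OB

open Classical in
private theorem LS_ge (ω : ℕ → ℕ) (X j z : ℕ) (B : Finset ℕ) (hB : ∀ p ∈ B, p.Prime ∧ p ≤ 2 * z)
    (hX : (2 * z) ^ j ≤ X) (c : ℝ) (hc : 0 ≤ c)
    (hω : ∀ p ∈ B, c ≤ (ω p : ℝ) / ((p : ℝ) - ω p))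
    (hω' : ∀ p : ℕ, p.Prime → p ≤ X → 0 ≤ (ω p : ℝ) / ((p : ℝ) - ω p)) :
    (B.card.choose j : ℝ) * c ^ j ≤ LS ω X := by
  unfold LS
  have hpf : ∀ s ∈ powersetCard j B, (∏ p ∈ s, p).primeFactors = s := by
    intro s hs
    rw [mem_powersetCard] at hs
    exact Nat.primeFactors_prod fun p hp => (hB p (hs.1 hp)).1
  have hinj : Set.InjOn (fun s : Finset ℕ => ∏ p ∈ s, p) (powersetCard j B : Finset (Finset ℕ)) := by
    intro s hs t ht hst
    have h1 := hpf s (Finset.mem_coe.1 hs)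
    have h2 := hpf t (Finset.mem_coe.1 ht)
    simp only at hst
    rw [← h1, ← h2, hst]
  have hsub : (powersetCard j B).image (fun s : Finset ℕ => ∏ p ∈ s, p) ⊆
      (Icc 1 X).filter Squarefree := by
    intro q hq
    rw [mem_image] at hq
    obtain ⟨s, hs, rfl⟩ := hq
    rw [mem_powersetCard] at hs
    rw [mem_filter, mem_Icc]
    refine ⟨⟨?_, ?_⟩, ?_⟩
    · exact Nat.one_le_iff_ne_zero.2 (Finset.prod_ne_zero_iff.2 fun p hp => (hB p (hs.1 hp)).1.ne_zero)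
    · refine le_trans ?_ hX
      rw [← hs.2]
      exact Finset.prod_le_pow_card s (fun p => p) (2 * z) fun p hp => (hB p (hs.1 hp)).2
    · refine Finset.squarefree_prod_of_pairwise_isCoprime ?_ ?_
      · intro p hp q hq hpq
        rw [Function.onFun, ← Nat.coprime_iff_isRelPrime]
        exact (Nat.coprime_primes (hB p (hs.1 hp)).1 (hB q (hs.1 hq)).1).2 hpq
      · intro p hp
        exact (hB p (hs.1 hp)).1.squarefree
  calc (B.card.choose j : ℝ) * c ^ j = ∑ s ∈ powersetCard j B, c ^ j := by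
        rw [Finset.sum_const, Finset.card_powersetCard, nsmul_eq_mul]
    _ ≤ ∑ s ∈ powersetCard j B, ∏ p ∈ (∏ p ∈ s, p).primeFactors, (ω p : ℝ) / ((p : ℝ) - ω p) := by
        refine Finset.sum_le_sum fun s hs => ?_
        rw [hpf s hs]
        rw [mem_powersetCard] at hs
        calc c ^ j = ∏ _p ∈ s, c := by rw [Finset.prod_const, hs.2]
          _ ≤ _ := Finset.prod_le_prod (fun _ _ => hc) fun p hp => hω p (hs.1 hp)
    _ = ∑ q ∈ (powersetCard j B).image (fun s : Finset ℕ => ∏ p ∈ s, p),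
          ∏ p ∈ q.primeFactors, (ω p : ℝ) / ((p : ℝ) - ω p) := by
        rw [Finset.sum_image hinj]
    _ ≤ _ := by
        refine Finset.sum_le_sum_of_subset_of_nonneg hsub ?_
        intro q hq _
        rw [mem_filter, mem_Icc] at hq
        refine Finset.prod_nonneg fun p hp => ?_
        have h1 := Nat.mem_primeFactors.1 hp
        exact hω' p h1.1 ((Nat.le_of_dvd (by omega) h1.2.1).trans hq.1.2)

open Classical in
theorem occ {κ ε : ℝ} (hκ : 0 < κ) (hε : κ ≤ ε) (hε1 : ε ≤ 1 / 8) : ∃ Y₀ : ℕ, ∀ Y : ℕ, Y₀ ≤ Y →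
    ∀ z : ℕ, (Y : ℝ) ^ κ ≤ z → (z : ℝ) ≤ (Y : ℝ) ^ ε → ∀ N : Finset ℕ, N ⊆ range (Y + 1) →
      (Y : ℝ) ^ (1 / 2 + 3 * ε) ≤ N.card →
      (((Ioc z (2 * z)).filter (fun p : ℕ => p.Prime ∧
        ((N.image (fun n : ℕ => n % p)).card : ℝ) ≤ (p : ℝ) - (z : ℝ) ^ (1 - ε))).card : ℝ) ≤
          (z : ℝ) ^ (1 - ε) := by
  have hε0 : 0 < ε := hκ.trans_le hε
  set J : ℕ := ⌈1 / κ⌉₊ with hJ
  set C : ℝ := 30 * 2 ^ (J + 1) * 4 ^ J * (J.factorial : ℝ) with hC
  have e1 : ∀ᶠ Y : ℕ in atTop, C < (Y : ℝ) ^ ε :=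
    ((tendsto_rpow_atTop hε0).comp tendsto_natCast_atTop_atTop).eventually_gt_atTop C
  have hκe : 0 < κ * (1 - ε) := mul_pos hκ (by linarith)
  have e2 : ∀ᶠ Y : ℕ in atTop, (2 * J : ℝ) ≤ (Y : ℝ) ^ (κ * (1 - ε)) :=
    ((tendsto_rpow_atTop hκe).comp tendsto_natCast_atTop_atTop).eventually_ge_atTop _
  obtain ⟨Y₀, hY₀⟩ := eventually_atTop.1 (e1.and (e2.and (eventually_ge_atTop 2)))
  refine ⟨Y₀, fun Y hY z hz1 hz2 N hN hNc => ?_⟩
  obtain ⟨hYC, hYJ, hY2⟩ := hY₀ Y hY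
  have hy2 : (2 : ℝ) ≤ (Y : ℝ) := by exact_mod_cast hY2
  have hy1 : (1 : ℝ) < (Y : ℝ) := by linarith
  have hy0 : (0 : ℝ) < (Y : ℝ) := by linarith
  have hζ1 : (1 : ℝ) ≤ (z : ℝ) := by
    refine le_trans ?_ hz1
    exact Real.one_le_rpow hy1.le hκ.le
  have hζ0 : (0 : ℝ) < (z : ℝ) := by linarith
  have hz0 : 0 < z := by exact_mod_cast hζ0
  by_contra hcon
  rw [not_le] at hcon
  set B : Finset ℕ := (Ioc z (2 * z)).filter (fun p : ℕ => p.Prime ∧
        ((N.image (fun n : ℕ => n % p)).card : ℝ) ≤ (p : ℝ) - (z : ℝ) ^ (1 - ε)) with hB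
  set w : ℕ := ⌈(z : ℝ) ^ (1 - ε)⌉₊ with hw
  have hwge : (z : ℝ) ^ (1 - ε) ≤ (w : ℝ) := Nat.le_ceil _
  -- the choice of `j`
  set S : ℕ := Nat.sqrt Y with hS
  have hS0 : S ≠ 0 := by
    rw [hS]
    have : 0 < Nat.sqrt Y := Nat.sqrt_pos.2 (by omega)
    omega
  set j : ℕ := Nat.log (2 * z) S with hj
  have hj1 : (2 * z) ^ j ≤ S := Nat.pow_log_le_self (2 * z) hS0
  have hj2 : S < (2 * z) ^ (j + 1) := Nat.lt_pow_succ_log_self (by omega) S
  have hSY : S * S ≤ Y := Nat.sqrt_le Y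
  have hYS : Y < (S + 1) * (S + 1) := Nat.lt_succ_sqrt Y
  have hyS : (Y : ℝ) ^ (1 / 2 : ℝ) ≤ (2 * (z : ℝ)) ^ (j + 1) := by
    have h1 : (Y : ℝ) ≤ ((2 * (z : ℝ)) ^ (j + 1)) ^ (2 : ℝ) := by
      have h2 : Y ≤ ((2 * z) ^ (j + 1)) * ((2 * z) ^ (j + 1)) :=
        hYS.le.trans (Nat.mul_le_mul hj2 hj2)
      have h3 : (Y : ℝ) ≤ ((2 * (z : ℝ)) ^ (j + 1)) * ((2 * (z : ℝ)) ^ (j + 1)) := by
        exact_mod_cast h2
      rw [Real.rpow_two, sq]
      exact h3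
    calc (Y : ℝ) ^ (1 / 2 : ℝ) ≤ (((2 * (z : ℝ)) ^ (j + 1)) ^ (2 : ℝ)) ^ (1 / 2 : ℝ) :=
          Real.rpow_le_rpow hy0.le h1 (by norm_num)
      _ = (2 * (z : ℝ)) ^ (j + 1) := by
          rw [← Real.rpow_mul (by positivity)]
          norm_num
  have hSy : (2 * (z : ℝ)) ^ j ≤ (Y : ℝ) ^ (1 / 2 : ℝ) := by
    have h1 : ((2 * (z : ℝ)) ^ j) ^ (2 : ℝ) ≤ (Y : ℝ) := by
      have h2 : ((2 * z) ^ j) * ((2 * z) ^ j) ≤ Y := (Nat.mul_le_mul hj1 hj1).trans hSY
      have h3 : ((2 * (z : ℝ)) ^ j) * ((2 * (z : ℝ)) ^ j) ≤ (Y : ℝ) := by exact_mod_cast h2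
      rw [Real.rpow_two, sq]
      exact h3
    calc (2 * (z : ℝ)) ^ j = (((2 * (z : ℝ)) ^ j) ^ (2 : ℝ)) ^ (1 / 2 : ℝ) := by
          rw [← Real.rpow_mul (by positivity)]
          norm_num
      _ ≤ (Y : ℝ) ^ (1 / 2 : ℝ) := Real.rpow_le_rpow (by positivity) h1 (by norm_num)
  have hjJ : j ≤ J := by
    have h1 : (Y : ℝ) ^ (κ * j) ≤ (Y : ℝ) ^ (1 / 2 : ℝ) := by
      calc (Y : ℝ) ^ (κ * j) = ((Y : ℝ) ^ κ) ^ j := by
            rw [Real.rpow_mul hy0.le, Real.rpow_natCast]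
        _ ≤ (z : ℝ) ^ j := by gcongr
        _ ≤ (2 * (z : ℝ)) ^ j := by
            apply pow_le_pow_left₀ hζ0.le
            linarith
        _ ≤ _ := hSy
    have h2 : κ * j ≤ 1 / 2 := (Real.rpow_le_rpow_left_iff hy1).1 h1
    have h3 : (j : ℝ) ≤ 1 / κ := by
      rw [le_div_iff₀ hκ]
      linarith
    have h4 : (j : ℝ) ≤ (J : ℝ) := h3.trans (Nat.le_ceil _)
    exact_mod_cast h4
  -- the large sieve
  have hNpos : 0 < N.card := by
    have h1 : (0 : ℝ) < N.card := lt_of_lt_of_le (by positivity) hNc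
    exact_mod_cast h1
  have hNne : N.Nonempty := Finset.card_pos.1 hNpos
  have hBw : ∀ p ∈ B, (N.image (fun n : ℕ => n % p)).card + w ≤ p := by
    intro p hp
    rw [hB, mem_filter] at hp
    have h1 := hp.2.2
    have h2 : (z : ℝ) ^ (1 - ε) ≤ ((p - (N.image (fun n : ℕ => n % p)).card : ℕ) : ℝ) := by
      have h3 : (N.image (fun n : ℕ => n % p)).card ≤ p := by
        have h4 : ((N.image (fun n : ℕ => n % p)).card : ℝ) ≤ (p : ℝ) := by
          have : 0 ≤ (z : ℝ) ^ (1 - ε) := by positivity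
          linarith
        exact_mod_cast h4
      rw [Nat.cast_sub h3]
      linarith
    have h3 : w ≤ p - (N.image (fun n : ℕ => n % p)).card := Nat.ceil_le.2 h2
    have h4 : 0 < w := Nat.ceil_pos.2 (by positivity)
    omega
  have himg : ∀ p : ℕ, 0 < (N.image (fun n : ℕ => n % p)).card := fun p =>
    Finset.card_pos.2 (hNne.image _)
  set ω : ℕ → ℕ := fun p => if p ∈ B then w else 0 with hω
  have hω1 : ∀ p : ℕ, p.Prime → ω p < p := by
    intro p hp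
    by_cases h1 : p ∈ B
    · have h2 := hBw p h1
      have h3 := himg p
      simp only [hω, h1, if_true]
      omega
    · simp only [hω, h1, if_false]
      exact hp.pos
  have hω2 : ∀ p : ℕ, p.Prime → (N.image (fun n : ℕ => n % p)).card + ω p ≤ p := by
    intro p hp
    by_cases h1 : p ∈ B
    · simp only [hω, h1, if_true]
      exact hBw p h1
    · simp only [hω, h1, if_false, add_zero]
      calc (N.image (fun n : ℕ => n % p)).card ≤ (range p).card := by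
            refine Finset.card_le_card fun x hx => ?_
            rw [mem_image] at hx
            obtain ⟨n, _, rfl⟩ := hx
            exact mem_range.2 (Nat.mod_lt _ hp.pos)
        _ = p := card_range p
  have hNI : N ⊆ Icc 0 (0 + Y) := by
    intro n hn
    have := mem_range.1 (hN hn)
    rw [mem_Icc]
    omega
  have hsieve := arith_large_sieve ((2 * z) ^ j) 0 Y N hNI ω (fun p hp _ => hω1 p hp)
    (fun p hp _ => hω2 p hp)
  have hLS := LS_ge ω ((2 * z) ^ j) j z B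
    (fun p hp => by
      rw [hB, mem_filter, mem_Ioc] at hp
      exact ⟨hp.2.1, hp.1.2⟩) le_rfl ((z : ℝ) ^ (-ε) / 2) (by positivity)
    (fun p hp => by
      have h1 := hBw p hp
      have h2 := himg p
      have hp' := hp
      rw [hB, mem_filter, mem_Ioc] at hp'
      have h3 : ω p = w := by simp only [hω, hp, if_true]
      rw [h3]
      have h4 : (0 : ℝ) < (p : ℝ) - w := by
        have : (w : ℝ) < p := by exact_mod_cast (show w < p by omega)
        linarith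
      rw [le_div_iff₀ h4]
      have h5 : (p : ℝ) - w ≤ 2 * z := by
        have : (p : ℝ) ≤ 2 * z := by exact_mod_cast hp'.1.2
        have h6 : (0 : ℝ) ≤ w := Nat.cast_nonneg w
        linarith
      calc (z : ℝ) ^ (-ε) / 2 * ((p : ℝ) - w) ≤ (z : ℝ) ^ (-ε) / 2 * (2 * z) := by gcongr
        _ = (z : ℝ) ^ (-ε) * (z : ℝ) ^ (1 : ℝ) := by rw [Real.rpow_one]; ring
        _ = (z : ℝ) ^ (1 - ε) := by
            rw [← Real.rpow_add hζ0]
            congr 1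
            ring
        _ ≤ w := hwge)
    (fun p hp _ => by
      have h1 := hω1 p hp
      have h2 : (ω p : ℝ) < p := by exact_mod_cast h1
      exact div_nonneg (Nat.cast_nonneg _) (by linarith))
  have hX2 : (((2 * z) ^ j : ℕ) : ℝ) ^ 2 ≤ (Y : ℝ) := by
    have h2 : ((2 * z) ^ j) ^ 2 ≤ Y := by
      rw [sq]
      exact (Nat.mul_le_mul hj1 hj1).trans hSY
    exact_mod_cast h2
  have hmain : (N.card : ℝ) * ((B.card.choose j : ℝ) * ((z : ℝ) ^ (-ε) / 2) ^ j) ≤ 30 * Y := by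
    calc (N.card : ℝ) * ((B.card.choose j : ℝ) * ((z : ℝ) ^ (-ε) / 2) ^ j)
        ≤ (N.card : ℝ) * LS ω ((2 * z) ^ j) := by gcongr
      _ ≤ (((2 * z) ^ j : ℕ) : ℝ) ^ 2 + 14 * (Y + 1) := hsieve
      _ ≤ 30 * Y := by linarith
  -- the binomial coefficient
  have hzJ : (2 * J : ℝ) ≤ (z : ℝ) ^ (1 - ε) := by
    refine hYJ.trans ?_
    rw [Real.rpow_mul hy0.le]
    exact Real.rpow_le_rpow (by positivity) hz1 (by linarith)
  have hjJr : (j : ℝ) ≤ (J : ℝ) := by exact_mod_cast hjJ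
  have hchoose : ((z : ℝ) ^ (1 - ε) / 2) ^ j ≤ (j.factorial : ℝ) * (B.card.choose j : ℝ) := by
    have h1 : (((B.card + 1 - j : ℕ) ^ j : ℕ) : ℝ) ≤ (j.factorial : ℝ) * (B.card.choose j : ℝ) := by
      have h2 : (B.card + 1 - j) ^ j ≤ j.factorial * B.card.choose j := by
        rw [← Nat.descFactorial_eq_factorial_mul_choose]
        exact Nat.pow_sub_le_descFactorial B.card j
      exact_mod_cast h2
    refine le_trans ?_ h1
    push_cast
    have h2 : j ≤ B.card + 1 := by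
      have : (j : ℝ) ≤ (B.card : ℝ) := by
        have hj0 : (0 : ℝ) ≤ j := Nat.cast_nonneg j
        linarith
      have h3 : j ≤ B.card := by exact_mod_cast this
      omega
    have h3 : ((B.card + 1 - j : ℕ) : ℝ) = (B.card : ℝ) + 1 - j := by
      rw [Nat.cast_sub h2]
      push_cast
      ring
    rw [h3]
    apply pow_le_pow_left₀ (by positivity)
    linarith
  -- combination
  set u : ℝ := (z : ℝ) ^ (1 - 2 * ε) with hu
  have hu0 : 0 < u := by positivity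
  have huz : u ≤ z := by
    calc u ≤ (z : ℝ) ^ (1 : ℝ) := Real.rpow_le_rpow_of_exponent_le hζ1 (by linarith)
      _ = z := Real.rpow_one _
  have huprod : ((z : ℝ) ^ (1 - ε) / 2) * ((z : ℝ) ^ (-ε) / 2) = u / 4 := by
    have : (z : ℝ) ^ (1 - ε) * (z : ℝ) ^ (-ε) = u := by
      rw [← Real.rpow_add hζ0, hu]
      congr 1
      ring
    rw [← this]
    ring
  have hNc0 : (0 : ℝ) ≤ N.card := Nat.cast_nonneg _
  have hA : (N.card : ℝ) * (u / 4) ^ j ≤ (j.factorial : ℝ) * (30 * Y) := by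
    calc (N.card : ℝ) * (u / 4) ^ j
        = (N.card : ℝ) * (((z : ℝ) ^ (1 - ε) / 2) ^ j * ((z : ℝ) ^ (-ε) / 2) ^ j) := by
          rw [← mul_pow, huprod]
      _ ≤ (N.card : ℝ) * (((j.factorial : ℝ) * (B.card.choose j : ℝ)) * ((z : ℝ) ^ (-ε) / 2) ^ j) := by
          gcongr
      _ = (j.factorial : ℝ) * ((N.card : ℝ) * ((B.card.choose j : ℝ) * ((z : ℝ) ^ (-ε) / 2) ^ j)) := by
          ring
      _ ≤ _ := by gcongr
  have hA2 : (N.card : ℝ) * u ^ j ≤ 4 ^ j * ((j.factorial : ℝ) * (30 * Y)) := by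
    have h1 : (u / 4) ^ j = u ^ j / 4 ^ j := div_pow _ _ _
    rw [h1] at hA
    have h4 : (0 : ℝ) < 4 ^ j := by positivity
    calc (N.card : ℝ) * u ^ j = 4 ^ j * ((N.card : ℝ) * (u ^ j / 4 ^ j)) := by
          field_simp
      _ ≤ _ := by gcongr
  have hB1 : (Y : ℝ) ^ (1 / 2 - ε) ≤ 2 ^ (j + 1) * u ^ j * z := by
    calc (Y : ℝ) ^ (1 / 2 - ε) = ((Y : ℝ) ^ (1 / 2 : ℝ)) ^ (1 - 2 * ε) := by
          rw [← Real.rpow_mul hy0.le]
          congr 1
          ring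
      _ ≤ ((2 * (z : ℝ)) ^ (j + 1)) ^ (1 - 2 * ε) :=
          Real.rpow_le_rpow (by positivity) hyS (by linarith)
      _ = ((2 * (z : ℝ)) ^ (1 - 2 * ε)) ^ (j + 1) := by
          rw [← Real.rpow_natCast (2 * (z : ℝ)) (j + 1),
            ← Real.rpow_natCast ((2 * (z : ℝ)) ^ (1 - 2 * ε)) (j + 1),
            ← Real.rpow_mul (by positivity), ← Real.rpow_mul (by positivity)]
          congr 1
          ring
      _ ≤ (2 * u) ^ (j + 1) := by
          apply pow_le_pow_left₀ (by positivity)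
          rw [Real.mul_rpow (by norm_num) hζ0.le]
          have h2 : (2 : ℝ) ^ (1 - 2 * ε) ≤ 2 := by
            calc (2 : ℝ) ^ (1 - 2 * ε) ≤ (2 : ℝ) ^ (1 : ℝ) :=
                  Real.rpow_le_rpow_of_exponent_le (by norm_num) (by linarith)
              _ = 2 := Real.rpow_one _
          exact mul_le_mul_of_nonneg_right h2 hu0.le
      _ = 2 ^ (j + 1) * u ^ j * u := by ring
      _ ≤ _ := by gcongr
  have hfin : (Y : ℝ) ^ (1 / 2 + 3 * ε) * (Y : ℝ) ^ (1 / 2 - ε) ≤ C * ((Y : ℝ) * (Y : ℝ) ^ ε) := by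
    calc (Y : ℝ) ^ (1 / 2 + 3 * ε) * (Y : ℝ) ^ (1 / 2 - ε)
        ≤ (N.card : ℝ) * (2 ^ (j + 1) * u ^ j * z) := by gcongr
      _ = 2 ^ (j + 1) * z * ((N.card : ℝ) * u ^ j) := by ring
      _ ≤ 2 ^ (j + 1) * z * (4 ^ j * ((j.factorial : ℝ) * (30 * Y))) := by gcongr
      _ = 30 * 2 ^ (j + 1) * 4 ^ j * (j.factorial : ℝ) * (Y * z) := by ring
      _ ≤ 30 * 2 ^ (J + 1) * 4 ^ J * (J.factorial : ℝ) * (Y * z) := by
          have h1 : (2 : ℝ) ^ (j + 1) ≤ 2 ^ (J + 1) :=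
            pow_le_pow_right₀ (by norm_num) (by omega)
          have h2 : (4 : ℝ) ^ j ≤ 4 ^ J := pow_le_pow_right₀ (by norm_num) hjJ
          have h3 : (j.factorial : ℝ) ≤ (J.factorial : ℝ) := by
            exact_mod_cast Nat.factorial_le hjJ
          gcongr
      _ ≤ C * ((Y : ℝ) * (Y : ℝ) ^ ε) := by
          rw [hC]
          gcongr
  have h1 : (Y : ℝ) ^ (1 / 2 + 3 * ε) * (Y : ℝ) ^ (1 / 2 - ε) = ((Y : ℝ) * (Y : ℝ) ^ ε) * (Y : ℝ) ^ ε := by
    have h2 : ((Y : ℝ) * (Y : ℝ) ^ ε) * (Y : ℝ) ^ ε = (Y : ℝ) ^ (1 : ℝ) * (Y : ℝ) ^ ε * (Y : ℝ) ^ ε := by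
      rw [Real.rpow_one]
    rw [h2, ← Real.rpow_add hy0, ← Real.rpow_add hy0, ← Real.rpow_add hy0]
    congr 1
    ring
  rw [h1, mul_comm C] at hfin
  have h2 : (0 : ℝ) < (Y : ℝ) * (Y : ℝ) ^ ε := by positivity
  have h3 := le_of_mul_le_mul_left hfin h2
  linarith

end Pool.Agent.Helper27.IQ
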